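import Pool.Agent.Run7.h749.UD.Split

/-!
# Bounded degree unit disk graphs: columns and rows (pieces C2a, C2b)
-/

namespace Run7.h749.UD

open Complex Run7.h840

/-! ### Exact vectors -/

theorem S1_pos : (0:ℝ) < S1 := by unfold S1; norm_num

theorem cu_re (a : V2) : (cu a).re = (a.1 : ℝ) / S1 := rfl
theorem cu_im (a : V2) : (cu a).im = (a.2 : ℝ) / S1 := rfl

theorem cu_va (a b : V2) : cu (va a b) = cu a + cu b := by
  apply Complex.ext
  · rw [Complex.add_re, cu_re, cu_re, cu_re]; unfold va; push_cast; ring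
  · rw [Complex.add_im, cu_im, cu_im, cu_im]; unfold va; push_cast; ring

theorem cu_vs (a b : V2) : cu (vs a b) = cu a - cu b := by
  apply Complex.ext
  · rw [Complex.sub_re, cu_re, cu_re, cu_re]; unfold vs; push_cast; ring
  · rw [Complex.sub_im, cu_im, cu_im, cu_im]; unfold vs; push_cast; ring

theorem cu_vn (a : V2) : cu (vn a) = - cu a := by
  apply Complex.ext
  · rw [Complex.neg_re, cu_re, cu_re]; unfold vn; push_cast; ring
  · rw [Complex.neg_im, cu_im, cu_im]; unfold vn; push_cast; ring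

theorem cu_vmn (k : ℕ) (a : V2) : cu (vm (k : ℤ) a) = (k : ℂ) * cu a := by
  apply Complex.ext
  · rw [← Complex.ofReal_natCast, Complex.re_ofReal_mul, cu_re, cu_re]; unfold vm; push_cast; ring
  · rw [← Complex.ofReal_natCast, Complex.im_ofReal_mul, cu_im, cu_im]; unfold vm; push_cast; ring

theorem cu_zero : cu (0, 0) = 0 := by
  apply Complex.ext
  · rw [cu_re]; simp
  · rw [cu_im]; simp

theorem cS_vm (a : V2) : cS (vm S2 a) = cu a := by
  have h : ∀ t : ℤ, ((S2 * t : ℤ) : ℝ) / SS = (t : ℝ) / S1 := by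
    intro t
    have : (SS : ℝ) = (S2 : ℝ) * S1 := by unfold SS S2 S1; norm_num
    rw [this]; push_cast
    have h2 : (S2 : ℝ) ≠ 0 := by unfold S2; norm_num
    exact mul_div_mul_left _ _ h2
  apply Complex.ext
  · exact h a.1
  · exact h a.2

theorem cS_NX (i : ℕ) : cS (NX i) = ((i / 4 : ℕ) : ℂ) * cu Pc + cu (Xo (i % 4)) := by
  unfold NX; rw [cS_vm, cu_va, cu_vmn]

theorem cS_NY (l : ℕ) : cS (NY l) = ((l / 8 : ℕ) : ℂ) * cu Pr + cu (Yo (l % 8)) := by
  unfold NY; rw [cS_vm, cu_va, cu_vmn]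

theorem norm_cu (a : V2) : ‖cu a‖ ^ 2 = (nsq a : ℝ) / (S1 : ℝ) ^ 2 := by
  rw [nsq_eq, cu_re, cu_im]; unfold nsq; push_cast; ring

/-- exact unit vectors -/
theorem norm_cu_one (a : V2) (h : nsq a = S1 * S1) : ‖cu a‖ = 1 := by
  have h2 : ‖cu a‖ ^ 2 = 1 := by
    rw [norm_cu, h]; push_cast
    have := S1_pos
    field_simp
  have h0 := norm_nonneg (cu a)
  nlinarith

/-- upper bound of the norm of an integer vector -/
theorem norm_cu_le (a : V2) (p q : ℕ) (hq : 0 < q) (h : (q:ℤ) ^ 2 * nsq a ≤ (p:ℤ) ^ 2 * S1 ^ 2) :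
    ‖cu a‖ ≤ (p : ℝ) / q := by
  have h1 : ((q:ℝ)) ^ 2 * (nsq a : ℝ) ≤ (p:ℝ) ^ 2 * (S1:ℝ) ^ 2 := by exact_mod_cast h
  have hq' : (0:ℝ) < q := by exact_mod_cast hq
  have h2 : ‖cu a‖ ^ 2 ≤ ((p:ℝ) / q) ^ 2 := by
    rw [norm_cu, div_pow, div_le_div_iff₀ (by have := S1_pos; positivity) (by positivity)]
    linarith
  exact (pow_le_pow_iff_left₀ (norm_nonneg _) (by positivity) (by norm_num)).1 h2

/-- lower bound of the norm of an integer vector -/
theorem norm_cu_ge (a : V2) (p q : ℕ) (hq : 0 < q) (h : (p:ℤ) ^ 2 * S1 ^ 2 ≤ (q:ℤ) ^ 2 * nsq a) :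
    (p : ℝ) / q ≤ ‖cu a‖ := by
  have h1 : (p:ℝ) ^ 2 * (S1:ℝ) ^ 2 ≤ ((q:ℝ)) ^ 2 * (nsq a : ℝ) := by exact_mod_cast h
  have hq' : (0:ℝ) < q := by exact_mod_cast hq
  have h2 : ((p:ℝ) / q) ^ 2 ≤ ‖cu a‖ ^ 2 := by
    rw [norm_cu, div_pow, div_le_div_iff₀ (by positivity) (by have := S1_pos; positivity)]
    linarith
  exact (pow_le_pow_iff_left₀ (by positivity) (norm_nonneg _) (by norm_num)).1 h2

/-- almost unit integer vectors -/
theorem norm_cu_near (a : V2) (h1 : (999999999:ℤ) ^ 2 * S1 ^ 2 ≤ (1000000000:ℤ) ^ 2 * nsq a)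
    (h2 : (1000000000:ℤ) ^ 2 * nsq a ≤ (1000000001:ℤ) ^ 2 * S1 ^ 2) :
    |‖cu a‖ - 1| ≤ 1 / 10 ^ 9 := by
  have a1 := norm_cu_ge a 999999999 1000000000 (by norm_num) (by exact_mod_cast h1)
  have a2 := norm_cu_le a 1000000001 1000000000 (by norm_num) (by exact_mod_cast h2)
  rw [abs_le]
  constructor
  · push_cast at a1; linarith
  · push_cast at a2; linarith

theorem cr_cu (a b : V2) : cr (cu a) (cu b) = ((a.1 * b.2 - a.2 * b.1 : ℤ) : ℝ) / (S1:ℝ) ^ 2 := by
  unfold cr; rw [cu_re, cu_im, cu_re, cu_im]; push_cast; ring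

theorem abs_cr_le (a b : ℂ) : |cr a b| ≤ ‖a‖ * ‖b‖ := by
  have h : cr a b ^ 2 ≤ (‖a‖ * ‖b‖) ^ 2 := by
    rw [mul_pow, nsq_eq, nsq_eq]
    unfold cr
    nlinarith [sq_nonneg (a.re * b.re + a.im * b.im)]
  rw [← sq_abs] at h
  exact (pow_le_pow_iff_left₀ (abs_nonneg _) (by positivity) (by norm_num)).1 h

theorem cr_sub_left (a b c : ℂ) : cr (a - b) c = cr a c - cr b c := by
  unfold cr; rw [Complex.sub_re, Complex.sub_im]; ring

/-- a sum of small terms with at most `m` nonzero ones -/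
theorem sum_le (f : ℕ → ℝ) (m : ℕ) (c : ℝ) (hc : 0 ≤ c) (h1 : ∀ p < m, f p ≤ c)
    (h2 : ∀ p, m ≤ p → f p = 0) (p : ℕ) : ∑ i ∈ Finset.range p, f i ≤ m * c := by
  have h : ∑ i ∈ Finset.range p, f i ≤ (min p m : ℕ) * c := by
    induction p with
    | zero => simp
    | succ p ih =>
      rw [Finset.sum_range_succ]
      by_cases hp : p < m
      · have e : min (p + 1) m = min p m + 1 := by omega
        rw [e]; push_cast
        have := h1 p hp
        push_cast at ih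
        linarith
      · have e : min (p + 1) m = min p m := by omega
        rw [e, h2 p (by omega)]; linarith
  refine le_trans h ?_
  have : ((min p m : ℕ) : ℝ) ≤ m := by exact_mod_cast min_le_right p m
  exact mul_le_mul_of_nonneg_right this hc

/-- a vector near a nominal one -/
theorem near_add {W W0 a : ℂ} {e : ℝ} (h : ‖W - W0‖ ≤ e) {e' : ℝ} (h' : |‖W0 - a‖ - 1| ≤ e') :
    |‖W - a‖ - 1| ≤ e + e' := by
  have h3 : |‖W - a‖ - ‖W0 - a‖| ≤ ‖(W - a) - (W0 - a)‖ := abs_norm_sub_norm_le _ _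
  have h4 : (W - a) - (W0 - a) = W - W0 := by ring
  rw [h4] at h3
  have h5 : ‖W - a‖ - 1 = (‖W - a‖ - ‖W0 - a‖) + (‖W0 - a‖ - 1) := by ring
  rw [h5]
  exact le_trans (abs_add_le _ _) (by linarith)

/-! ### Columns -/

/-- offset of column `r` in a block with signal `z` -/
noncomputable def offX (z : ℂ) (r : ℕ) : ℂ :=
  match r with
  | 0 => 0
  | 1 => spa z
  | 2 => z
  | _ => z + cu s1i

noncomputable def baseX (z : ℕ → ℂ) (p : ℕ) : ℂ :=
  ∑ j ∈ Finset.range p, (z j + cu s1i + cu s2i)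

noncomputable def colX (z : ℕ → ℂ) (i : ℕ) : ℂ := baseX z (i / 4) + offX (z (i / 4)) (i % 4)

theorem colX_eq (z : ℕ → ℂ) (p r : ℕ) (hr : r < 4) :
    colX z (4 * p + r) = baseX z p + offX (z p) r := by
  have e1 : (4 * p + r) / 4 = p := by omega
  have e2 : (4 * p + r) % 4 = r := by omega
  unfold colX; rw [e1, e2]

theorem baseX_succ (z : ℕ → ℂ) (p : ℕ) : baseX z (p + 1) = baseX z p + (z p + cu s1i + cu s2i) := by
  unfold baseX; rw [Finset.sum_range_succ]

theorem norm_s1 : ‖cu s1i‖ = 1 := norm_cu_one _ (by unfold nsq s1i S1; norm_num)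
theorem norm_s2 : ‖cu s2i‖ = 1 := norm_cu_one _ (by unfold nsq s2i S1; norm_num)

theorem stepX (z : ℕ → ℂ) (hz1 : ∀ p, 0 < ‖z p‖) (hz2 : ∀ p, ‖z p‖ ≤ 2) (i : ℕ) :
    ‖colX z (i + 1) - colX z i‖ = 1 := by
  obtain ⟨p, r, hr, rfl⟩ : ∃ p r, r < 4 ∧ i = 4 * p + r := ⟨i / 4, i % 4, by omega, by omega⟩
  interval_cases r
  · rw [show 4 * p + 0 + 1 = 4 * p + 1 from rfl, colX_eq z p 1 (by norm_num),
      colX_eq z p 0 (by norm_num)]
    have e : baseX z p + offX (z p) 1 - (baseX z p + offX (z p) 0) = spa (z p) := by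
      show baseX z p + spa (z p) - (baseX z p + 0) = spa (z p)
      ring
    rw [e]; exact norm_spa _ (hz1 p) (hz2 p)
  · rw [show 4 * p + 1 + 1 = 4 * p + 2 from rfl, colX_eq z p 2 (by norm_num),
      colX_eq z p 1 (by norm_num)]
    have e : baseX z p + offX (z p) 2 - (baseX z p + offX (z p) 1) = spb (z p) := by
      show baseX z p + z p - (baseX z p + spa (z p)) = spb (z p)
      have := spa_add_spb (z p)
      linear_combination -this
    rw [e]; exact norm_spb _ (hz1 p) (hz2 p)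
  · rw [show 4 * p + 2 + 1 = 4 * p + 3 from rfl, colX_eq z p 3 (by norm_num),
      colX_eq z p 2 (by norm_num)]
    have e : baseX z p + offX (z p) 3 - (baseX z p + offX (z p) 2) = cu s1i := by
      show baseX z p + (z p + cu s1i) - (baseX z p + z p) = cu s1i
      ring
    rw [e]; exact norm_s1
  · have e0 : 4 * p + 3 + 1 = 4 * (p + 1) + 0 := by ring
    rw [e0, colX_eq z (p + 1) 0 (by norm_num), colX_eq z p 3 (by norm_num), baseX_succ]
    have e : baseX z p + (z p + cu s1i + cu s2i) + offX (z (p + 1)) 0 -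
        (baseX z p + offX (z p) 3) = cu s2i := by
      show baseX z p + (z p + cu s1i + cu s2i) + 0 - (baseX z p + (z p + cu s1i)) = cu s2i
      ring
    rw [e]; exact norm_s2

theorem baseX_near (z : ℕ → ℂ) (m : ℕ) (c : ℝ) (hc : 0 ≤ c) (h1 : ∀ p < m, ‖z p - cu Z0i‖ ≤ c)
    (h2 : ∀ p, m ≤ p → z p = cu Z0i) (p : ℕ) :
    ‖baseX z p - (p : ℂ) * cu Pc‖ ≤ m * c := by
  have e : baseX z p - (p : ℂ) * cu Pc = ∑ j ∈ Finset.range p, (z j - cu Z0i) := by
    unfold baseX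
    have : cu Pc = cu Z0i + cu s1i + cu s2i := by unfold Pc; rw [cu_va, cu_va]
    rw [this, ← Finset.card_range p, ← nsmul_eq_mul, ← Finset.sum_const, Finset.card_range,
      ← Finset.sum_sub_distrib]
    apply Finset.sum_congr rfl
    intro j _
    ring
  rw [e]
  refine le_trans (norm_sum_le _ _) (sum_le (fun j => ‖z j - cu Z0i‖) m c hc h1 ?_ p)
  intro q hq
  show ‖z q - cu Z0i‖ = 0
  rw [h2 q hq]; simp

theorem cr_Z0_c1 : 1 / 20 ≤ cr (cu Z0i) (cu c1i) := by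
  rw [cr_cu]; unfold Z0i c1i S1; norm_num

theorem spa_z_near (z : ℂ) (h : ‖z - cu Z0i‖ ≤ 1 / 10 ^ 9) : ‖spa z - cu c1i‖ ≤ 5 / 10 ^ 7 := by
  have a1 : (57/1000:ℝ) ≤ ‖cu Z0i‖ := by
    have := norm_cu_ge Z0i 57 1000 (by norm_num) (by unfold nsq Z0i S1; norm_num)
    push_cast at this; exact this
  have a2 : ‖cu Z0i‖ ≤ (58/1000:ℝ) := by
    have := norm_cu_le Z0i 58 1000 (by norm_num) (by unfold nsq Z0i S1; norm_num)
    push_cast at this; exact this
  have b := abs_le.1 (le_trans (abs_norm_sub_norm_le z (cu Z0i)) h)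
  have c1n : |‖cu c1i‖ - 1| ≤ 1 / 10 ^ 9 :=
    norm_cu_near _ (by unfold nsq c1i S1; norm_num) (by unfold nsq c1i S1; norm_num)
  have c2n : |‖cu Z0i - cu c1i‖ - 1| ≤ 1 / 10 ^ 9 := by
    rw [← cu_vs]
    exact norm_cu_near _ (by unfold nsq vs Z0i c1i S1; norm_num)
      (by unfold nsq vs Z0i c1i S1; norm_num)
  have c3 := near_add h c2n
  have c4 : |cr (z - cu Z0i) (cu c1i)| ≤ 1 / 10 ^ 8 := by
    refine le_trans (abs_cr_le _ _) ?_
    have : ‖cu c1i‖ ≤ 2 := by have := (abs_le.1 c1n).2; linarith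
    calc ‖z - cu Z0i‖ * ‖cu c1i‖ ≤ 1 / 10 ^ 9 * 2 :=
          mul_le_mul h this (norm_nonneg _) (by norm_num)
      _ ≤ 1 / 10 ^ 8 := by norm_num
  have c5 : 0 < cr z (cu c1i) := by
    have e := cr_sub_left z (cu Z0i) (cu c1i)
    have e1 := cr_Z0_c1
    have := (abs_le.1 c4).1
    rw [e] at this
    linarith
  have := (split_gen z (by linarith [b.1]) (by linarith [b.2]) (cu c1i) (3 / 10 ^ 9) (by norm_num)
    (by norm_num) (by linarith) (by linarith)).1 c5
  linarith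

theorem colX_near (z : ℕ → ℂ) (m : ℕ) (c : ℝ) (hc : 0 ≤ c) (hc2 : c ≤ 1 / 10 ^ 9)
    (hmc : m * c ≤ 1 / 10 ^ 9) (h1 : ∀ p, ‖z p - cu Z0i‖ ≤ c)
    (h2 : ∀ p, m ≤ p → z p = cu Z0i) (i : ℕ) : ‖colX z i - cS (NX i)‖ ≤ 1 / 10 ^ 6 := by
  rw [cS_NX]
  unfold colX
  have hb := baseX_near z m c hc (fun p _ => h1 p) h2 (i / 4)
  set p := i / 4
  have hz := h1 p
  have key : ∀ u v : ℂ, ‖u - v‖ ≤ 6 / 10 ^ 7 →
      ‖baseX z p + u - ((p : ℂ) * cu Pc + v)‖ ≤ 1 / 10 ^ 6 := by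
    intro u v huv
    have e : baseX z p + u - ((p : ℂ) * cu Pc + v) = (baseX z p - (p : ℂ) * cu Pc) + (u - v) := by
      ring
    rw [e]
    refine le_trans (norm_add_le _ _) ?_
    linarith
  have hr : i % 4 < 4 := Nat.mod_lt _ (by norm_num)
  apply key
  generalize i % 4 = r at hr
  interval_cases r
  · show ‖(0:ℂ) - cu (0, 0)‖ ≤ _
    rw [cu_zero, sub_zero, norm_zero]; norm_num
  · show ‖spa (z p) - cu c1i‖ ≤ _
    have := spa_z_near (z p) (by linarith)
    linarith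
  · show ‖z p - cu Z0i‖ ≤ _
    linarith
  · show ‖z p + cu s1i - cu (va Z0i s1i)‖ ≤ _
    rw [cu_va]
    have e : z p + cu s1i - (cu Z0i + cu s1i) = z p - cu Z0i := by ring
    rw [e]; linarith

theorem norm_Z0_bd : 0 < ‖cu Z0i‖ ∧ ‖cu Z0i‖ ≤ 1 := by
  have a1 := norm_cu_ge Z0i 57 1000 (by norm_num) (by unfold nsq Z0i S1; norm_num)
  have a2 := norm_cu_le Z0i 58 1000 (by norm_num) (by unfold nsq Z0i S1; norm_num)
  push_cast at a1 a2
  constructor <;> linarith

/-- **C2a.** -/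
theorem c2a : S_C2a := by
  intro mB z hm hz
  have hmR : (1:ℝ) ≤ mB := by exact_mod_cast hm
  set c : ℝ := 1 / (10 ^ 9 * mB) with hc
  have hc0 : 0 ≤ c := by rw [hc]; positivity
  have hmc : mB * c = 1 / 10 ^ 9 := by rw [hc]; field_simp
  have hc1 : c ≤ 1 / 10 ^ 9 := by
    rw [← hmc]; nlinarith
  set z' : ℕ → ℂ := fun p => if p < mB then z p else cu Z0i with hz'
  have n1 : ∀ p, ‖z' p - cu Z0i‖ ≤ c := by
    intro p
    simp only [hz']
    split
    · exact hz p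
    · simp [hc0]
  have n2 : ∀ p, mB ≤ p → z' p = cu Z0i := by
    intro p hp
    simp only [hz']
    rw [if_neg (by omega)]
  have n3 : ∀ p, 0 < ‖z' p‖ ∧ ‖z' p‖ ≤ 2 := by
    intro p
    have a1 : (57/1000:ℝ) ≤ ‖cu Z0i‖ := by
      have := norm_cu_ge Z0i 57 1000 (by norm_num) (by unfold nsq Z0i S1; norm_num)
      push_cast at this; exact this
    have a2 := norm_Z0_bd.2
    have b := abs_le.1 (le_trans (abs_norm_sub_norm_le (z' p) (cu Z0i)) (n1 p))
    constructor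
    · linarith [b.1]
    · linarith [b.2]
  refine ⟨colX z', ?_, ?_, ?_, ?_, ?_⟩
  · show baseX z' 0 + offX (z' 0) 0 = 0
    show (∑ j ∈ Finset.range 0, (z' j + cu s1i + cu s2i)) + 0 = 0
    simp
  · exact stepX z' (fun p => (n3 p).1) (fun p => (n3 p).2)
  · exact colX_near z' mB c hc0 hc1 (le_of_eq hmc) n1 n2
  · intro p hp
    rw [colX_eq z' p 2 (by norm_num), show 4 * p = 4 * p + 0 from rfl,
      colX_eq z' p 0 (by norm_num)]
    show baseX z' p + z' p - (baseX z' p + 0) = z p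
    have : z' p = z p := by simp only [hz']; rw [if_pos hp]
    rw [this]; ring
  · intro i
    have bs : ∀ k, baseX z' (mB + k) = baseX z' mB + (k : ℂ) * cu Pc := by
      intro k
      induction k with
      | zero => simp
      | succ k ih =>
        rw [← add_assoc, baseX_succ, ih, n2 (mB + k) (by omega)]
        have : cu Pc = cu Z0i + cu s1i + cu s2i := by unfold Pc; rw [cu_va, cu_va]
        rw [this]; push_cast; ring
    have e0 : 4 * mB + i = 4 * (mB + i / 4) + i % 4 := by omega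
    have e1 : colX z' (4 * mB) = baseX z' mB := by
      rw [show 4 * mB = 4 * mB + 0 from rfl, colX_eq z' mB 0 (by norm_num)]
      show baseX z' mB + 0 = _
      ring
    rw [e1, e0, colX_eq z' _ _ (Nat.mod_lt _ (by norm_num)), bs, n2 _ (by omega)]
    have e2 : (4 * (mB + i / 4) + i % 4 - 4 * mB) = i := by omega
    unfold Xr
    have hr : i % 4 < 4 := Nat.mod_lt _ (by norm_num)
    generalize i % 4 = r at hr
    interval_cases r
    · show baseX z' mB + _ + 0 = baseX z' mB + (_ + 0); ring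
    · show baseX z' mB + _ + spa (cu Z0i) = baseX z' mB + (_ + spa (cu Z0i)); ring
    · show baseX z' mB + _ + cu Z0i = baseX z' mB + (_ + cu Z0i); ring
    · show baseX z' mB + _ + (cu Z0i + cu s1i) = baseX z' mB + (_ + (cu Z0i + cu s1i)); ring

end Run7.h749.UD
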