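import Pool.Agent.Run7.h749.UD.PRule

/-!
# Polynomial time: the graph
-/

namespace Pool.Agent.NPC.H749D

open Pool.Agent.NPC Run7.h840

/-- kind of a class -/
def kf (c : ℕ) : ℕ :=
  if c ≤ 1 then 0 else if c ≤ 3 then 1 else if c < 7 then 2 else if c < 13 then 3
  else if c < 16 then 4 else if c < 21 then 5 else if c < 26 then 6 else if c ≤ 27 then 7 else 8

/-- parameter of a class -/
def zf (c : ℕ) : ℕ :=
  if c ≤ 1 then c else if c ≤ 3 then c - 2 else if c < 7 then c - 4 else if c < 13 then c - 7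
  else if c < 16 then c - 13 else if c < 21 then c - 15 else if c < 26 then c - 20
  else if c ≤ 27 then c - 26 else c - 27

theorem kf_lt (c : ℕ) : kf c < 9 := by
  unfold kf
  split_ifs <;> norm_num

theorem zf_lt {c : ℕ} (h : c < 64) : zf c < 64 := by
  unfold zf
  split_ifs <;> omega

theorem mkv_eq (c l i : ℕ) : mkv c l i = mk (kf c) l i (zf c) := by
  unfold mkv kf zf
  by_cases h0 : c = 0
  · subst h0; rfl
  by_cases h1 : c = 1
  · subst h1; rfl
  by_cases h2 : c = 2
  · subst h2; rfl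
  by_cases h3 : c = 3
  · subst h3; rfl
  have n1 : ¬ c ≤ 1 := by omega
  have n3 : ¬ c ≤ 3 := by omega
  simp only [h0, h1, h2, h3, n1, n3, if_false]
  by_cases h7 : c < 7
  · simp only [h7, if_true]; rfl
  simp only [h7, if_false]
  by_cases h13 : c < 13
  · simp only [h13, if_true]; rfl
  simp only [h13, if_false]
  by_cases h16 : c < 16
  · simp only [h16, if_true]; rfl
  simp only [h16, if_false]
  by_cases h21 : c < 21
  · simp only [h21, if_true]; rfl
  simp only [h21, if_false]
  by_cases h26 : c < 26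
  · simp only [h26, if_true]; rfl
  simp only [h26, if_false]
  by_cases e26 : c = 26
  · subst e26; rfl
  by_cases e27 : c = 27
  · subst e27; rfl
  have n27 : ¬ c ≤ 27 := by omega
  simp only [e26, e27, n27, if_false]
  rfl

/-- transported site of a kind -/
def st (κ j z : ℕ) : Site := if κ = 3 then .A j z else if κ = 5 then .Bd j z else .G 0 j

/-- near the root -/
def nr (iend κ l i : ℕ) : Bool :=
  (decide (κ = 0) && decide (l = 0) || decide (κ = 2) || decide (κ = 3) || decide (κ = 5)) &&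
    (decide (iend ≤ i + 12) && decide (i ≤ iend))

theorem radj_mk (rtab : ℕ → Site → Bool) (iend k κ l i z : ℕ) (hκ : κ < 9) :
    radj rtab iend k (mk κ l i z) = (nr iend κ l i &&
      (decide (st κ (i + 14 - iend) z = .G 0 14) || rtab k (st κ (i + 14 - iend) z))) := by
  unfold radj nr
  interval_cases κ <;> simp only [mk, rsite, st]
  · by_cases h : l = 0 ∧ iend ≤ i + 12 ∧ i ≤ iend
    · simp [h]
    · rw [if_neg h]
      have : (decide (l = 0) && (decide (iend ≤ i + 12) && decide (i ≤ iend))) = false := by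
        rw [Bool.eq_false_iff]; simpa using h
      simp [this]
  · simp
  · by_cases h : iend ≤ i + 12 ∧ i ≤ iend
    · simp [h]
    · rw [if_neg h]
      have : (decide (iend ≤ i + 12) && decide (i ≤ iend)) = false := by
        rw [Bool.eq_false_iff]; simpa using h
      simp [this]
  · by_cases h : iend ≤ i + 12 ∧ i ≤ iend
    · simp [h]
    · rw [if_neg h]
      have : (decide (iend ≤ i + 12) && decide (i ≤ iend)) = false := by
        rw [Bool.eq_false_iff]; simpa using h
      simp [this]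
  · simp
  · by_cases h : iend ≤ i + 12 ∧ i ≤ iend
    · simp [h]
    · rw [if_neg h]
      have : (decide (iend ≤ i + 12) && decide (i ≤ iend)) = false := by
        rw [Bool.eq_false_iff]; simpa using h
      simp [this]
  · simp
  · simp
  · simp

/-- the finite list of arguments of the table -/
def Lr : List (ℕ × ℕ × ℕ × ℕ) :=
  (List.range (6 * MR)).flatMap fun k => (List.range 9).flatMap fun κ =>
    (List.range 15).flatMap fun j => (List.range 64).map fun z => (k, κ, j, z)

theorem mem_Lr {k κ j z : ℕ} : (k, κ, j, z) ∈ Lr ↔ k < 6 * MR ∧ κ < 9 ∧ j < 15 ∧ z < 64 := by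
  unfold Lr
  simp only [List.mem_flatMap, List.mem_map, List.mem_range, Prod.mk.injEq]
  constructor
  · rintro ⟨k', hk, κ', hκ, j', hj, z', hz, rfl, rfl, rfl, rfl⟩
    exact ⟨hk, hκ, hj, hz⟩
  · rintro ⟨hk, hκ, hj, hz⟩
    exact ⟨k, hk, κ, hκ, j, hj, z, hz, rfl, rfl, rfl, rfl⟩

/-- the table -/
def Tr (rtab : ℕ → Site → Bool) (t : ℕ × ℕ × ℕ × ℕ) : Bool :=
  decide (st t.2.1 t.2.2.1 t.2.2.2 = .G 0 14) || rtab t.1 (st t.2.1 t.2.2.1 t.2.2.2)

/-- the table as a list -/
def TL (rtab : ℕ → Site → Bool) : List (ℕ × ℕ × ℕ × ℕ) := Lr.filter (Tr rtab)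

theorem mem_TL {rtab : ℕ → Site → Bool} {t : ℕ × ℕ × ℕ × ℕ} :
    t ∈ TL rtab ↔ t ∈ Lr ∧ Tr rtab t = true := List.mem_filter

attribute [irreducible] TL

/-- adjacency of a ring vertex, by the table -/
def radjT (rtab : ℕ → Site → Bool) (iend k c l i : ℕ) : Bool :=
  nr iend (kf c) l i && decide ((k, kf c, i + 14 - iend, zf c) ∈ TL rtab)

theorem radjT_eq (rtab : ℕ → Site → Bool) {iend k c l i : ℕ} (hk : k < 6 * MR) (hc : c < 64) :
    radjT rtab iend k c l i = radj rtab iend k (mkv c l i) := by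
  rw [mkv_eq, radj_mk _ _ _ _ _ _ _ (kf_lt c)]
  unfold radjT
  cases hn : nr iend (kf c) l i
  · simp
  · simp only [Bool.true_and]
    have hj : i + 14 - iend < 15 := by
      unfold nr at hn
      simp only [Bool.and_eq_true, decide_eq_true_eq] at hn
      omega
    rw [Bool.eq_iff_iff, decide_eq_true_iff, mem_TL]
    constructor
    · exact fun h => h.2
    · exact fun h => ⟨mem_Lr.2 ⟨hk, kf_lt c, hj, zf_lt hc⟩, h⟩

/-- the adjacency on codes -/
def adT (rtab : ℕ → Site → Bool) (M : List (List Bool)) (iend W a b : ℕ) : Bool :=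
  if a % 64 = 33 then
    (if b % 64 = 33 then cyc (a / 64) (b / 64)
    else radjT rtab iend (a / 64) (b % 64) (b / 64 / W) (b / 64 % W))
  else
    (if b % 64 = 33 then radjT rtab iend (b / 64) (a % 64) (a / 64 / W) (a / 64 % W)
    else adj0 (ER.Pat.ent M) (mkv (a % 64) (a / 64 / W) (a / 64 % W))
      (mkv (b % 64) (b / 64 / W) (b / 64 % W)))

theorem mk_ne_w (κ l i z k : ℕ) : mk κ l i z ≠ .w k := by
  unfold mk
  split <;> simp

theorem adj_eq (rtab : ℕ → Site → Bool) (σ : ℕ → ℕ → Bool) (iend : ℕ) (x y : Vx)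
    (hx : ∀ k, x ≠ .w k) (hy : ∀ k, y ≠ .w k) : adj rtab σ iend x y = adj0 σ x y := by
  cases x <;> cases y <;> first
    | rfl
    | exact absurd rfl (hx _)
    | exact absurd rfl (hy _)

theorem adj_w1 (rtab : ℕ → Site → Bool) (σ : ℕ → ℕ → Bool) (iend k : ℕ) (y : Vx)
    (hy : ∀ k, y ≠ .w k) : adj rtab σ iend (.w k) y = radj rtab iend k y := by
  cases y <;> first
    | rfl
    | exact absurd rfl (hy _)

theorem adj_w2 (rtab : ℕ → Site → Bool) (σ : ℕ → ℕ → Bool) (iend k : ℕ) (y : Vx)
    (hy : ∀ k, y ≠ .w k) : adj rtab σ iend y (.w k) = radj rtab iend k y := by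
  cases y <;> first
    | rfl
    | exact absurd rfl (hy _)

theorem adT_eq (rtab : ℕ → Site → Bool) (M : List (List Bool)) (iend W a b : ℕ)
    (ha : a % 64 = 33 → a / 64 < 6 * MR) (hb : b % 64 = 33 → b / 64 < 6 * MR) :
    adT rtab M iend W a b = adj rtab (ER.Pat.ent M) iend (dec W a) (dec W b) := by
  unfold adT dec
  have hmod : ∀ n : ℕ, n % 64 < 64 := fun n => Nat.mod_lt _ (by norm_num)
  have nw : ∀ c l i k, mkv c l i ≠ .w k := fun c l i k => by rw [mkv_eq]; exact mk_ne_w _ _ _ _ _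
  by_cases h1 : a % 64 = 33 <;> by_cases h2 : b % 64 = 33
  · rw [if_pos h1, if_pos h2, if_pos h1, if_pos h2]; rfl
  · rw [if_pos h1, if_neg h2, if_pos h1, if_neg h2, adj_w1 _ _ _ _ _ (nw _ _ _),
      radjT_eq _ (ha h1) (hmod b)]
  · rw [if_neg h1, if_pos h2, if_neg h1, if_pos h2, adj_w2 _ _ _ _ _ (nw _ _ _),
      radjT_eq _ (hb h2) (hmod a)]
  · rw [if_neg h1, if_neg h2, if_neg h1, if_neg h2, adj_eq _ _ _ _ _ (nw _ _ _) (nw _ _ _)]

section

variable {α : Type} [TEnc α] {M : α → List (List Bool)} {c l i c' l' i' k iend W a b : α → ℕ}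

theorem poly_kf (hc : Poly c) : Poly (fun x => kf (c x)) := by
  unfold kf
  repeat' with_reducible first
    | assumption
    | exact Poly.const _
    | refine Poly.ite ?_ ?_ ?_
    | refine Poly.decide_le ?_ ?_
    | refine Poly.decide_lt ?_ ?_

theorem poly_zf (hc : Poly c) : Poly (fun x => zf (c x)) := by
  unfold zf
  repeat' with_reducible first
    | assumption
    | exact Poly.const _
    | refine Poly.ite ?_ ?_ ?_
    | refine Poly.decide_le ?_ ?_
    | refine Poly.decide_lt ?_ ?_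
    | refine Poly.sub ?_ ?_

theorem poly_adjN (hM : Poly M) (hc : Poly c) (hl : Poly l) (hi : Poly i) (hc' : Poly c')
    (hl' : Poly l') (hi' : Poly i') :
    Poly (fun x => adj0 (ER.Pat.ent (M x)) (mkv (c x) (l x) (i x)) (mkv (c' x) (l' x) (i' x))) := by
  have hk := poly_kf hc
  have hz := poly_zf hc
  have hk' := poly_kf hc'
  have hz' := poly_zf hc'
  have h1 : ∀ κ < 9, Poly (fun x => if kf (c' x) < 9 then adj0 (ER.Pat.ent (M x))
      (mk κ (l x) (i x) (zf (c x))) (mk (kf (c' x)) (l' x) (i' x) (zf (c' x))) else false) := by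
    intro κ hκ
    exact poly_fin 9 (fun κ' x => adj0 (ER.Pat.ent (M x))
      (mk κ (l x) (i x) (zf (c x))) (mk κ' (l' x) (i' x) (zf (c' x)))) false
      (fun κ' hκ' => poly_adj0 hM hl hi hz hl' hi' hz' κ κ' hκ hκ') hk'
  have h2 := poly_fin 9 (fun κ x => if kf (c' x) < 9 then adj0 (ER.Pat.ent (M x))
      (mk κ (l x) (i x) (zf (c x))) (mk (kf (c' x)) (l' x) (i' x) (zf (c' x))) else false) false
      h1 hk
  refine h2.congr fun x => ?_
  rw [if_pos (kf_lt _), if_pos (kf_lt _), mkv_eq, mkv_eq]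

theorem poly_nr {κ : α → ℕ} (he : Poly iend) (hκ : Poly κ) (hl : Poly l) (hi : Poly i) :
    Poly (fun x => nr (iend x) (κ x) (l x) (i x)) := by
  unfold nr
  repeat' with_reducible first
    | assumption
    | exact Poly.const _
    | refine Poly.or ?_ ?_
    | refine Poly.and ?_ ?_
    | refine Poly.decide_eq ?_ ?_
    | refine Poly.decide_le ?_ ?_
    | refine Poly.add ?_ ?_

theorem poly_radjT (rtab : ℕ → Site → Bool) (he : Poly iend) (hk : Poly k) (hc : Poly c)
    (hl : Poly l) (hi : Poly i) :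
    Poly (fun x => radjT rtab (iend x) (k x) (c x) (l x) (i x)) := by
  unfold radjT
  have h1 : Poly (fun x => (k x, kf (c x), i x + 14 - iend x, zf (c x))) :=
    Poly.pair hk (Poly.pair (poly_kf hc) (Poly.pair (Poly.sub (Poly.add hi (Poly.const 14)) he)
      (poly_zf hc)))
  have h2 : Poly (fun x => decide ((k x, kf (c x), i x + 14 - iend x, zf (c x)) ∈ TL rtab)) := by
    refine (Poly.decide_mem h1 (Poly.const (TL rtab))).congr fun x => ?_
    exact decide_eq_decide.2 Iff.rfl
  exact Poly.and (poly_nr he (poly_kf hc) hl hi) h2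

theorem poly_cyc (ha : Poly a) (hb : Poly b) : Poly (fun x => cyc (a x) (b x)) := by
  unfold cyc
  repeat' with_reducible first
    | assumption
    | exact Poly.const _
    | refine Poly.decide_or ?_ ?_
    | refine Poly.decide_and ?_ ?_
    | refine Poly.decide_le ?_ ?_
    | refine Poly.add ?_ ?_

theorem poly_adT (rtab : ℕ → Site → Bool) (hM : Poly M) (he : Poly iend) (hW : Poly W)
    (ha : Poly a) (hb : Poly b) :
    Poly (fun x => adT rtab (M x) (iend x) (W x) (a x) (b x)) := by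
  unfold adT
  have a1 : Poly (fun x => a x % 64) := Poly.mod ha (Poly.const _)
  have a2 : Poly (fun x => a x / 64) := Poly.div ha (Poly.const _)
  have b1 : Poly (fun x => b x % 64) := Poly.mod hb (Poly.const _)
  have b2 : Poly (fun x => b x / 64) := Poly.div hb (Poly.const _)
  have a3 := Poly.div a2 hW
  have a4 := Poly.mod a2 hW
  have b3 := Poly.div b2 hW
  have b4 := Poly.mod b2 hW
  exact Poly.ite (Poly.decide_eq a1 (Poly.const _))
    (Poly.ite (Poly.decide_eq b1 (Poly.const _)) (poly_cyc a2 b2)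
      (poly_radjT rtab he a2 b1 b3 b4))
    (Poly.ite (Poly.decide_eq b1 (Poly.const _)) (poly_radjT rtab he b2 a1 a3 a4)
      (poly_adjN hM a1 a3 a4 b1 b3 b4))

end

/-! ### The list of the vertices -/

section

variable {α : Type} [TEnc α] {mB nL c l i : α → ℕ}

theorem poly_irOf (hm : Poly mB) : Poly (fun x => irOf (mB x)) := by
  unfold irOf
  exact Poly.add (Poly.mul (Poly.const _) (Poly.sub hm (Poly.const _))) (Poly.const _)

theorem poly_iendOf (hm : Poly mB) (hn : Poly nL) : Poly (fun x => iendOf (mB x) (nL x)) := by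
  unfold iendOf nXof
  repeat' with_reducible first
    | assumption
    | exact Poly.const _
    | refine Poly.add ?_ ?_
    | refine Poly.mul ?_ ?_
    | refine Poly.sub ?_ ?_

theorem poly_valc (hm : Poly mB) (hn : Poly nL) (hc : Poly c) (hl : Poly l) (hi : Poly i) :
    Poly (fun x => valc (mB x) (nL x) (c x) (l x) (i x)) := by
  have h1 := poly_irOf hm
  have h2 := poly_iendOf hm hn
  unfold valc
  repeat' with_reducible first
    | assumption
    | exact Poly.const _
    | refine Poly.ite ?_ ?_ ?_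
    | refine Poly.decide_or ?_ ?_
    | refine Poly.decide_and ?_ ?_
    | refine Poly.decide_le ?_ ?_
    | refine Poly.decide_lt ?_ ?_
    | refine Poly.decide_eq ?_ ?_
    | refine Poly.add ?_ ?_
    | refine Poly.mul ?_ ?_
    | refine Poly.mod ?_ ?_

theorem upoly_iend (hm : UPoly mB) (hn : UPoly nL) :
    UPoly (fun x => iendOf (mB x) (nL x)) := by
  have h1 : UPoly (fun x => 4 * (mB x + 100 * (mB x + nL x + 1)) + 2) := by
    repeat' with_reducible first
      | assumption
      | exact UPoly.const _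
      | refine UPoly.add ?_ ?_
      | refine UPoly.mul ?_ ?_
  refine UPoly.of_le (poly_iendOf hm.toPoly hn.toPoly) h1 fun x => ?_
  unfold iendOf nXof
  omega

theorem poly_vtxU (hm : UPoly mB) (hn : UPoly nL) :
    Poly (fun x => vtxU (mB x) (nL x)) := by
  have hm' := hm.toPoly
  have hn' := hn.toPoly
  have u1 : UPoly (fun x => 8 * nL x) := UPoly.mul (UPoly.const _) hn
  have u2 : UPoly (fun x => iendOf (mB x) (nL x) + 1) :=
    UPoly.add (upoly_iend hm hn) (UPoly.const _)
  have e1 : Poly (fun q : ((α × ℕ) × ℕ) × ℕ => mB q.1.1.1) :=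
    hm'.comp (Poly.fst (Poly.fst (Poly.fst Poly.id)))
  have e2 : Poly (fun q : ((α × ℕ) × ℕ) × ℕ => nL q.1.1.1) :=
    hn'.comp (Poly.fst (Poly.fst (Poly.fst Poly.id)))
  have e3 : Poly (fun q : ((α × ℕ) × ℕ) × ℕ => q.2) := Poly.snd Poly.id
  have e4 : Poly (fun q : ((α × ℕ) × ℕ) × ℕ => q.1.1.2) := Poly.snd (Poly.fst (Poly.fst Poly.id))
  have e5 : Poly (fun q : ((α × ℕ) × ℕ) × ℕ => q.1.2) := Poly.snd (Poly.fst Poly.id)
  have f1 : Poly (fun q : ((α × ℕ) × ℕ) × ℕ =>
      64 * (q.1.1.2 * (iendOf (mB q.1.1.1) (nL q.1.1.1) + 1) + q.1.2) + q.2) :=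
    Poly.add (Poly.mul (Poly.const _) (Poly.add (Poly.mul e4 (Poly.add (poly_iendOf e1 e2)
      (Poly.const _))) e5)) e3
  have g1 : Poly (fun q : (α × ℕ) × ℕ => ((List.range 33).filter fun c =>
      valc (mB q.1.1) (nL q.1.1) c q.1.2 q.2).map fun c =>
      64 * (q.1.2 * (iendOf (mB q.1.1) (nL q.1.1) + 1) + q.2) + c) :=
    Poly.map (F := fun (q : (α × ℕ) × ℕ) c =>
      64 * (q.1.2 * (iendOf (mB q.1.1) (nL q.1.1) + 1) + q.2) + c)
      (Poly.filter (p := fun (q : (α × ℕ) × ℕ) c => valc (mB q.1.1) (nL q.1.1) c q.1.2 q.2)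
        (Poly.const _) (poly_valc e1 e2 e3 e4 e5)) f1
  have g2 : Poly (fun q : α × ℕ => (List.range (iendOf (mB q.1) (nL q.1) + 1)).flatMap fun i =>
      ((List.range 33).filter fun c => valc (mB q.1) (nL q.1) c q.2 i).map fun c =>
      64 * (q.2 * (iendOf (mB q.1) (nL q.1) + 1) + i) + c) :=
    Poly.flatMap (F := fun (q : α × ℕ) i => ((List.range 33).filter fun c =>
      valc (mB q.1) (nL q.1) c q.2 i).map fun c =>
      64 * (q.2 * (iendOf (mB q.1) (nL q.1) + 1) + i) + c)
      (u2.range.comp (Poly.fst Poly.id)) g1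
  unfold vtxU
  exact Poly.append (Poly.flatMap (F := fun x l => (List.range (iendOf (mB x) (nL x) + 1)).flatMap
    fun i => ((List.range 33).filter fun c => valc (mB x) (nL x) c l i).map fun c =>
    64 * (l * (iendOf (mB x) (nL x) + 1) + i) + c) u1.range g2) (Poly.const _)

end

theorem vtx_ring {mB nL a : ℕ} (ha : a ∈ vtxU mB nL) (h : a % 64 = 33) : a / 64 < 6 * MR := by
  unfold vtxU at ha
  rw [List.mem_append] at ha
  rcases ha with ha | ha
  · exfalso
    simp only [List.mem_flatMap, List.mem_map, List.mem_filter, List.mem_range] at ha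
    obtain ⟨l, -, i, -, c, ⟨hc, -⟩, rfl⟩ := ha
    omega
  · rw [List.mem_map] at ha
    obtain ⟨k, hk, rfl⟩ := ha
    rw [List.mem_range] at hk
    omega

theorem gOf_congr {V : List ℕ} {A B : ℕ → ℕ → Bool} (h : ∀ a ∈ V, ∀ b ∈ V, A a b = B a b) :
    ER.gOf V A = ER.gOf V B := by
  unfold ER.gOf
  refine Prod.ext rfl ?_
  show (V.flatMap fun a => (V.filter fun b => decide (a < b) && A a b).map fun b => (a, b)) =
    V.flatMap fun a => (V.filter fun b => decide (a < b) && B a b).map fun b => (a, b)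
  refine List.flatMap_congr fun a ha => ?_
  rw [List.filter_congr fun b hb => by rw [h a ha b hb]]

/-- **D1** -/
theorem d1 : S_D1 := by
  intro rtab
  have hm : UPoly (fun M : List (List Bool) => M.length + 1) :=
    UPoly.add (UPoly.length Poly.id) (UPoly.const _)
  have hn : UPoly (fun M : List (List Bool) => ER.Pat.wid M + 1) :=
    UPoly.add (ER.Pat.upoly_wid Poly.id) (UPoly.const _)
  have hv : Poly (fun M : List (List Bool) => vtxU (M.length + 1) (ER.Pat.wid M + 1)) :=
    poly_vtxU hm hn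
  have f1 : Poly (fun p : (List (List Bool) × ℕ) × ℕ => p.1.1) := Poly.fst (Poly.fst Poly.id)
  have f2 : Poly (fun p : (List (List Bool) × ℕ) × ℕ => p.1.2) := Poly.snd (Poly.fst Poly.id)
  have f3 : Poly (fun p : (List (List Bool) × ℕ) × ℕ => p.2) := Poly.snd Poly.id
  have he : Poly (fun p : (List (List Bool) × ℕ) × ℕ =>
      iendOf (p.1.1.length + 1) (ER.Pat.wid p.1.1 + 1)) :=
    poly_iendOf (hm.toPoly.comp f1) (hn.toPoly.comp f1)
  have h1 : Poly (fun p : (List (List Bool) × ℕ) × ℕ => adT rtab p.1.1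
      (iendOf (p.1.1.length + 1) (ER.Pat.wid p.1.1 + 1))
      (iendOf (p.1.1.length + 1) (ER.Pat.wid p.1.1 + 1) + 1) p.1.2 p.2) :=
    poly_adT rtab f1 he (Poly.add he (Poly.const _)) f2 f3
  refine (ER.poly_gOf (adj := fun (M : List (List Bool)) a b => adT rtab M
      (iendOf (M.length + 1) (ER.Pat.wid M + 1))
      (iendOf (M.length + 1) (ER.Pat.wid M + 1) + 1) a b) hv h1).congr fun M => ?_
  unfold ug
  exact gOf_congr fun a ha b hb => adT_eq rtab M _ _ a b (vtx_ring ha) (vtx_ring hb)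

end Pool.Agent.NPC.H749D
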