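import Pool.Agent.Run7.h749.UD.PInt
import Pool.Agent.Run7.h840.IfaceD

/-!
# Polynomial time: nominal positions
-/

namespace Pool.Agent.NPC.H749D

open Pool.Agent.NPC Run7.h840

variable {α : Type} [TEnc α]

theorem poly_va {f g : α → V2} (hf : Poly f) (hg : Poly g) : Poly (fun a => va (f a) (g a)) := by
  unfold va
  exact Poly.pair (poly_zadd (Poly.fst hf) (Poly.fst hg)) (poly_zadd (Poly.snd hf) (Poly.snd hg))

theorem poly_vs {f g : α → V2} (hf : Poly f) (hg : Poly g) : Poly (fun a => vs (f a) (g a)) := by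
  unfold vs
  exact Poly.pair (poly_zsub (Poly.fst hf) (Poly.fst hg)) (poly_zsub (Poly.snd hf) (Poly.snd hg))

theorem poly_vn {f : α → V2} (hf : Poly f) : Poly (fun a => vn (f a)) := by
  unfold vn
  exact Poly.pair (poly_zneg (Poly.fst hf)) (poly_zneg (Poly.snd hf))

theorem poly_vm {k : α → ℤ} {f : α → V2} (hk : Poly k) (hf : Poly f) :
    Poly (fun a => vm (k a) (f a)) := by
  unfold vm
  exact Poly.pair (poly_zmul hk (Poly.fst hf)) (poly_zmul hk (Poly.snd hf))

theorem poly_idot {f g : α → V2} (hf : Poly f) (hg : Poly g) :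
    Poly (fun a => idot (f a) (g a)) := by
  unfold idot
  exact poly_zadd (poly_zmul (Poly.fst hf) (Poly.fst hg)) (poly_zmul (Poly.snd hf) (Poly.snd hg))

theorem poly_nsq {f : α → V2} (hf : Poly f) : Poly (fun a => nsq (f a)) := by
  unfold nsq
  exact poly_zadd (poly_zmul (Poly.fst hf) (Poly.fst hf)) (poly_zmul (Poly.snd hf) (Poly.snd hf))

theorem poly_rot {f : α → V2} (hf : Poly f) : Poly (fun a => rot (f a)) := by
  unfold rot
  exact Poly.pair (poly_zneg (Poly.snd hf)) (Poly.fst hf)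

theorem poly_thi {k : α → ℕ} (hk : Poly k) : Poly (fun a => thi (k a)) := by
  refine (Poly.ite (Poly.decide_eq hk (Poly.const 0)) (Poly.const (thi 0))
    (Poly.ite (Poly.decide_eq hk (Poly.const 1)) (Poly.const (thi 1))
      (Poly.const (thi 2)))).congr fun a => ?_
  split_ifs with h1 h2
  · rw [h1]
  · rw [h2]
  · obtain ⟨n, hn⟩ : ∃ n, k a = n + 2 := ⟨k a - 2, by omega⟩
    rw [hn]; rfl

theorem poly_omi {k : α → ℕ} (hk : Poly k) : Poly (fun a => omi (k a)) := by
  refine (Poly.ite (Poly.decide_eq hk (Poly.const 0)) (Poly.const (omi 0))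
    (Poly.ite (Poly.decide_eq hk (Poly.const 1)) (Poly.const (omi 1))
    (Poly.ite (Poly.decide_eq hk (Poly.const 2)) (Poly.const (omi 2))
    (Poly.ite (Poly.decide_eq hk (Poly.const 3)) (Poly.const (omi 3))
    (Poly.ite (Poly.decide_eq hk (Poly.const 4)) (Poly.const (omi 4))
      (Poly.const (omi 5))))))).congr fun a => ?_
  split_ifs with h1 h2 h3 h4 h5
  · rw [h1]
  · rw [h2]
  · rw [h3]
  · rw [h4]
  · rw [h5]
  · obtain ⟨n, hn⟩ : ∃ n, k a = n + 5 := ⟨k a - 5, by omega⟩
    rw [hn]; rfl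

theorem poly_rt {f : α → V2} {k : α → ℕ} (hf : Poly f) (hk : Poly k) :
    Poly (fun a => rt (f a) (k a)) := by
  unfold rt
  have h := poly_omi hk
  have h1 := Poly.fst h
  have h2 := Poly.snd h
  have f1 := Poly.fst hf
  have f2 := Poly.snd hf
  exact Poly.pair (poly_zsub (poly_zmul f1 h1) (poly_zmul f2 h2))
    (poly_zadd (poly_zmul f1 h2) (poly_zmul f2 h1))

theorem poly_stX {i : α → ℕ} (hi : Poly i) : Poly (fun a => stX (i a)) := by
  have hm : Poly (fun a => i a % 4) := Poly.mod hi (Poly.const 4)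
  refine (Poly.ite (Poly.decide_eq hm (Poly.const 0)) (Poly.const (stX 0))
    (Poly.ite (Poly.decide_eq hm (Poly.const 1)) (Poly.const (stX 1))
    (Poly.ite (Poly.decide_eq hm (Poly.const 2)) (Poly.const (stX 2))
      (Poly.const (stX 3))))).congr fun a => ?_
  have h4 : i a % 4 < 4 := Nat.mod_lt _ (by norm_num)
  unfold stX
  split_ifs with h1 h2 h3
  · rw [h1]
  · rw [h2]
  · rw [h3]
  · rw [show i a % 4 = 3 by omega]

theorem poly_Xo {i : α → ℕ} (hi : Poly i) : Poly (fun a => Xo (i a)) := by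
  refine (Poly.ite (Poly.decide_eq hi (Poly.const 0)) (Poly.const (Xo 0))
    (Poly.ite (Poly.decide_eq hi (Poly.const 1)) (Poly.const (Xo 1))
    (Poly.ite (Poly.decide_eq hi (Poly.const 2)) (Poly.const (Xo 2))
      (Poly.const (Xo 3))))).congr fun a => ?_
  split_ifs with h1 h2 h3
  · rw [h1]
  · rw [h2]
  · rw [h3]
  · obtain ⟨n, hn⟩ : ∃ n, i a = n + 3 := ⟨i a - 3, by omega⟩
    rw [hn]; rfl

theorem poly_stY {i : α → ℕ} (hi : Poly i) : Poly (fun a => stY (i a)) := by
  have hm : Poly (fun a => i a % 8) := Poly.mod hi (Poly.const 8)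
  refine (Poly.ite (Poly.decide_eq hm (Poly.const 0)) (Poly.const (stY 0))
    (Poly.ite (Poly.decide_eq hm (Poly.const 1)) (Poly.const (stY 1))
    (Poly.ite (Poly.decide_eq hm (Poly.const 2)) (Poly.const (stY 2))
    (Poly.ite (Poly.decide_eq hm (Poly.const 3)) (Poly.const (stY 3))
    (Poly.ite (Poly.decide_eq hm (Poly.const 4)) (Poly.const (stY 4))
    (Poly.ite (Poly.decide_eq hm (Poly.const 5)) (Poly.const (stY 5))
    (Poly.ite (Poly.decide_eq hm (Poly.const 6)) (Poly.const (stY 6))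
      (Poly.const (stY 7))))))))).congr fun a => ?_
  have h8 : i a % 8 < 8 := Nat.mod_lt _ (by norm_num)
  unfold stY
  split_ifs with h1 h2 h3 h4 h5 h6 h7
  · rw [h1]
  · rw [h2]
  · rw [h3]
  · rw [h4]
  · rw [h5]
  · rw [h6]
  · rw [h7]
  · rw [show i a % 8 = 7 by omega]

theorem poly_Yo {i : α → ℕ} (hi : Poly i) : Poly (fun a => Yo (i a)) := by
  refine (Poly.ite (Poly.decide_eq hi (Poly.const 0)) (Poly.const (Yo 0))
    (Poly.ite (Poly.decide_eq hi (Poly.const 1)) (Poly.const (Yo 1))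
    (Poly.ite (Poly.decide_eq hi (Poly.const 2)) (Poly.const (Yo 2))
    (Poly.ite (Poly.decide_eq hi (Poly.const 3)) (Poly.const (Yo 3))
    (Poly.ite (Poly.decide_eq hi (Poly.const 4)) (Poly.const (Yo 4))
    (Poly.ite (Poly.decide_eq hi (Poly.const 5)) (Poly.const (Yo 5))
    (Poly.ite (Poly.decide_eq hi (Poly.const 6)) (Poly.const (Yo 6))
      (Poly.const (Yo 7))))))))).congr fun a => ?_
  split_ifs with h1 h2 h3 h4 h5 h6 h7
  · rw [h1]
  · rw [h2]
  · rw [h3]
  · rw [h4]
  · rw [h5]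
  · rw [h6]
  · rw [h7]
  · obtain ⟨n, hn⟩ : ∃ n, i a = n + 7 := ⟨i a - 7, by omega⟩
    rw [hn]; rfl

theorem poly_NX {i : α → ℕ} (hi : Poly i) : Poly (fun a => NX (i a)) := by
  unfold NX
  exact poly_vm (Poly.const _) (poly_va (poly_vm (poly_cast (Poly.div hi (Poly.const 4)))
    (Poly.const _)) (poly_Xo (Poly.mod hi (Poly.const 4))))

theorem poly_NY {i : α → ℕ} (hi : Poly i) : Poly (fun a => NY (i a)) := by
  unfold NY
  exact poly_vm (Poly.const _) (poly_va (poly_vm (poly_cast (Poly.div hi (Poly.const 8)))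
    (Poly.const _)) (poly_Yo (Poly.mod hi (Poly.const 8))))

theorem poly_mdir {k : α → ℕ} (hk : Poly k) : Poly (fun a => mdir (k a)) := by
  unfold mdir
  exact poly_rot (poly_rt (Poly.const _) hk)

theorem poly_pol {b : α → Bool} {f : α → V2} (hb : Poly b) (hf : Poly f) :
    Poly (fun a => pol (b a) (f a)) := by
  have h1 : Poly (fun a => decide (0 < idot (f a) nui)) :=
    poly_zlt (Poly.const _) (poly_idot hf (Poly.const _))
  refine (Poly.decide_eq hb h1).congr fun a => ?_
  unfold pol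
  cases b a <;> cases decide (0 < idot (f a) nui) <;> rfl

theorem poly_isTest {l i l' i' : α → ℕ} (hl : Poly l) (hi : Poly i) (hl' : Poly l')
    (hi' : Poly i') : Poly (fun a => isTest (l a) (i a) (l' a) (i' a)) := by
  unfold isTest
  repeat' with_reducible first
    | assumption
    | exact Poly.const _
    | refine Poly.decide_or ?_ ?_
    | refine Poly.decide_and ?_ ?_
    | refine Poly.decide_eq ?_ ?_
    | refine Poly.add ?_ ?_
    | refine Poly.mod ?_ ?_

theorem poly_tval {M : α → List (List Bool)} {l i : α → ℕ} (hM : Poly M) (hl : Poly l)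
    (hi : Poly i) : Poly (fun a => tval (ER.Pat.ent (M a)) (l a) (i a)) := by
  unfold tval
  have h1 : Poly (fun a => ER.Pat.ent (M a) (i a / 4) (l a / 8)) :=
    ER.Pat.poly_ent hM (Poly.div hi (Poly.const 4)) (Poly.div hl (Poly.const 8))
  exact Poly.ite (Poly.decide_eq (Poly.mod hl (Poly.const 8)) (Poly.const 6)) h1 (Poly.not h1)

end Pool.Agent.NPC.H749D
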