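import Pool.Agent.H612.CollectPoly
import Pool.Agent.NPC.Num

/-!
# Polynomial time arithmetic with integers, finite tables
-/

namespace Pool.Agent.NPC.H749D

open Pool.Agent.NPC

variable {α β : Type} [TEnc α] [TEnc β]

theorem poly_natAbs {f : α → ℤ} (hf : Poly f) : Poly (fun a => (f a).natAbs) :=
  Poly.of_toT ((Poly.tl hf.toT').congr fun _ => rfl)

theorem poly_isneg {f : α → ℤ} (hf : Poly f) : Poly (fun a => decide (f a < 0)) :=
  Poly.of_toT ((Poly.hd hf.toT').congr fun _ => rfl)

/-- positive part -/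
def pp (n : ℤ) : ℕ := if n < 0 then 0 else n.natAbs
/-- negative part -/
def np (n : ℤ) : ℕ := if n < 0 then n.natAbs else 0

theorem pp_np (n : ℤ) : (pp n : ℤ) - np n = n := by
  unfold pp np
  split_ifs with h <;> omega

theorem poly_pp {f : α → ℤ} (hf : Poly f) : Poly (fun a => pp (f a)) := by
  unfold pp
  exact Poly.ite (poly_isneg hf) (Poly.const _) (poly_natAbs hf)

theorem poly_np {f : α → ℤ} (hf : Poly f) : Poly (fun a => np (f a)) := by
  unfold np
  exact Poly.ite (poly_isneg hf) (poly_natAbs hf) (Poly.const _)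

theorem poly_isub {m n : α → ℕ} (hm : Poly m) (hn : Poly n) :
    Poly (fun a => ((m a : ℤ) - (n a : ℤ))) := H612.poly_int_sub hm hn

theorem poly_cast {m : α → ℕ} (hm : Poly m) : Poly (fun a => (m a : ℤ)) :=
  (poly_isub hm (Poly.const 0)).congr fun a => by simp

theorem poly_zadd {f g : α → ℤ} (hf : Poly f) (hg : Poly g) : Poly (fun a => f a + g a) := by
  refine (poly_isub (Poly.add (poly_pp hf) (poly_pp hg))
    (Poly.add (poly_np hf) (poly_np hg))).congr fun a => ?_
  have h1 := pp_np (f a)
  have h2 := pp_np (g a)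
  push_cast
  linarith

theorem poly_zneg {f : α → ℤ} (hf : Poly f) : Poly (fun a => - f a) := by
  refine (poly_isub (poly_np hf) (poly_pp hf)).congr fun a => ?_
  have h1 := pp_np (f a)
  linarith

theorem poly_zsub {f g : α → ℤ} (hf : Poly f) (hg : Poly g) : Poly (fun a => f a - g a) :=
  (poly_zadd hf (poly_zneg hg)).congr fun a => by ring

theorem poly_zmul {f g : α → ℤ} (hf : Poly f) (hg : Poly g) : Poly (fun a => f a * g a) := by
  refine (poly_isub (Poly.add (Poly.mul (poly_pp hf) (poly_pp hg))
    (Poly.mul (poly_np hf) (poly_np hg))) (Poly.add (Poly.mul (poly_pp hf) (poly_np hg))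
    (Poly.mul (poly_np hf) (poly_pp hg)))).congr fun a => ?_
  have h1 := pp_np (f a)
  have h2 := pp_np (g a)
  push_cast
  conv_rhs => rw [← h1, ← h2]
  ring

theorem poly_zlt {f g : α → ℤ} (hf : Poly f) (hg : Poly g) :
    Poly (fun a => decide (f a < g a)) := by
  refine (poly_isneg (poly_zsub hf hg)).congr fun a => ?_
  rw [Bool.eq_iff_iff, decide_eq_true_iff, decide_eq_true_iff]
  omega

theorem poly_zle {f g : α → ℤ} (hf : Poly f) (hg : Poly g) :
    Poly (fun a => decide (f a ≤ g a)) := by
  refine (Poly.not (poly_zlt hg hf)).congr fun a => ?_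
  rw [Bool.eq_iff_iff]
  simp

/-- A function given by a finite table, restricted to a finite list. -/
theorem poly_table [DecidableEq β] (L : List β) (F : β → Bool) {t : α → β} (ht : Poly t) :
    Poly (fun a => decide (t a ∈ L.filter F)) := Poly.decide_mem ht (Poly.const _)

end Pool.Agent.NPC.H749D
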