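import Pool.Agent.Run7.h749.UD.PGeo

/-!
# Polynomial time: adjacency of two vertices which are not ring vertices
-/

namespace Pool.Agent.NPC.H749D

open Pool.Agent.NPC Run7.h840

/-- the vertex of kind `κ` -/
def mk : ℕ → ℕ → ℕ → ℕ → Vx
  | 0, l, i, z => .g l i (decide (z = 1))
  | 1, l, i, z => .gp l i (decide (z = 1))
  | 2, _, i, z => .m i z
  | 3, _, i, z => .a i z
  | 4, _, i, z => .t i z
  | 5, _, i, z => .bd i z
  | 6, l, _, z => .kd l z
  | 7, _, i, z => .h i (decide (z = 1))
  | _, _, i, z => .hd i z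

variable {α β : Type} [TEnc α] [TEnc β]

theorem poly_fin (n : ℕ) (F : ℕ → α → β) (d : β) (hF : ∀ k < n, Poly (F k)) {c : α → ℕ}
    (hc : Poly c) : Poly (fun a => if c a < n then F (c a) a else d) := by
  induction n with
  | zero => exact (Poly.const d).congr fun a => by simp
  | succ n ih =>
    refine (Poly.ite (Poly.decide_eq hc (Poly.const n)) (hF n (Nat.lt_succ_self n))
      (ih fun k hk => hF k (by omega))).congr fun a => ?_
    by_cases h : c a = n
    · rw [if_pos h, if_pos (by omega), h]
    · rw [if_neg h]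
      by_cases h1 : c a < n
      · rw [if_pos h1, if_pos (by omega)]
      · rw [if_neg h1, if_neg (by omega)]

variable {M : α → List (List Bool)} {l i z l' i' z' : α → ℕ}

theorem poly_rule (hM : Poly M) (hl : Poly l) (hi : Poly i) (hz : Poly z) (hl' : Poly l')
    (hi' : Poly i') (hz' : Poly z') (κ κ' : ℕ) (hκ : κ < 9) (hκ' : κ' < 9) :
    Poly (fun x => rule (ER.Pat.ent (M x)) (mk κ (l x) (i x) (z x)) (mk κ' (l' x) (i' x) (z' x))) := by
  interval_cases κ <;> interval_cases κ' <;> first
    | exact Poly.const (none : Option Bool)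
    | (simp only [mk, rule]
       repeat' with_reducible first
        | assumption
        | exact Poly.const _
        | refine Poly.ite ?_ ?_ ?_
        | refine Poly.some ?_
        | refine Poly.decide_or ?_ ?_
        | refine Poly.decide_and ?_ ?_
        | refine poly_pol ?_ ?_
        | refine poly_tval ?_ ?_ ?_
        | refine poly_vn ?_
        | refine poly_vs ?_ ?_
        | refine poly_stX ?_
        | refine poly_stY ?_
        | refine poly_rt ?_ ?_
        | refine poly_mdir ?_
        | refine poly_zlt ?_ ?_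
        | refine poly_idot ?_ ?_
        | refine Poly.decide_eq ?_ ?_
        | refine Poly.decide_lt ?_ ?_
        | refine Poly.add ?_ ?_
        | refine Poly.sub ?_ ?_
        | refine Poly.mod ?_ ?_
        | refine poly_isTest ?_ ?_ ?_ ?_
        | refine (Poly.decide_bool (poly_isTest ?_ ?_ ?_ ?_)))

theorem poly_siteN (hl : Poly l) (hi : Poly i) (hz : Poly z) (κ : ℕ) (hκ : κ < 9) :
    Poly (fun x => (mk κ (l x) (i x) (z x)).site.N) := by
  have h1 := poly_NX hi
  have h2 := poly_NY hl
  interval_cases κ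
  · exact poly_va h1 h2
  · exact poly_va h1 h2
  · exact poly_va h1 (Poly.const (NY 0))
  · exact poly_va h1 (poly_rt (Poly.const _) hz)
  · exact poly_va h1 (poly_vm (Poly.const _) (poly_thi hz))
  · exact poly_va h1 (poly_rt (poly_vn (poly_stX (Poly.sub hi (Poly.const 1)))) hz)
  · exact poly_va h2 (poly_rt (poly_stY hl) hz)
  · exact poly_va (poly_va h1 (Poly.const (NY 2))) (Poly.const (rt yi 0))
  · exact poly_va (poly_va h1 (Poly.const (NY 2))) (poly_rt (Poly.const _) hz)

theorem poly_siteC (hl : Poly l) (hi : Poly i) (hz : Poly z) (κ : ℕ) (hκ : κ < 9) :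
    Poly (fun x => (mk κ (l x) (i x) (z x)).site.ci) := by
  interval_cases κ
  · exact hi
  · exact hi
  · exact hi
  · exact hi
  · exact hi
  · exact hi
  · exact Poly.const 0
  · exact hi
  · exact hi

theorem poly_siteR (hl : Poly l) (hi : Poly i) (hz : Poly z) (κ : ℕ) (hκ : κ < 9) :
    Poly (fun x => (mk κ (l x) (i x) (z x)).site.ri) := by
  interval_cases κ
  · exact hl
  · exact hl
  · exact Poly.const 0
  · exact Poly.const 0
  · exact Poly.const 0
  · exact Poly.const 0
  · exact hl
  · exact Poly.const 2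
  · exact Poly.const 2

theorem poly_near (hl : Poly l) (hi : Poly i) (hz : Poly z) (hl' : Poly l')
    (hi' : Poly i') (hz' : Poly z') (κ κ' : ℕ) (hκ : κ < 9) (hκ' : κ' < 9) :
    Poly (fun x => near (mk κ (l x) (i x) (z x)).site (mk κ' (l' x) (i' x) (z' x)).site) := by
  have n1 := poly_siteN hl hi hz κ hκ
  have n2 := poly_siteN hl' hi' hz' κ' hκ'
  have c1 := poly_siteC hl hi hz κ hκ
  have c2 := poly_siteC hl' hi' hz' κ' hκ'
  have r1 := poly_siteR hl hi hz κ hκ
  have r2 := poly_siteR hl' hi' hz' κ' hκ'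
  unfold near win
  repeat' with_reducible first
    | assumption
    | exact Poly.const _
    | refine Poly.and ?_ ?_
    | refine Poly.decide_and ?_ ?_
    | refine Poly.decide_le ?_ ?_
    | refine poly_zlt ?_ ?_
    | refine poly_nsq ?_
    | refine poly_vs ?_ ?_
    | refine Poly.add ?_ ?_
    | refine Poly.div ?_ ?_

theorem poly_adj0 (hM : Poly M) (hl : Poly l) (hi : Poly i) (hz : Poly z) (hl' : Poly l')
    (hi' : Poly i') (hz' : Poly z') (κ κ' : ℕ) (hκ : κ < 9) (hκ' : κ' < 9) :
    Poly (fun x => adj0 (ER.Pat.ent (M x)) (mk κ (l x) (i x) (z x))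
      (mk κ' (l' x) (i' x) (z' x))) := by
  have h1 := poly_rule hM hl hi hz hl' hi' hz' κ κ' hκ hκ'
  have h2 := poly_rule hM hl' hi' hz' hl hi hz κ' κ hκ' hκ
  have h3 := poly_near hl hi hz hl' hi' hz' κ κ' hκ hκ'
  have h4 := Poly.optCases (h := fun _ b => b) h2 h3 (Poly.snd Poly.id)
  refine (Poly.optCases (h := fun _ b => b) h1 h4 (Poly.snd Poly.id)).congr fun x => ?_
  unfold adj0
  cases rule (ER.Pat.ent (M x)) (mk κ (l x) (i x) (z x)) (mk κ' (l' x) (i' x) (z' x)) with
  | some v => rfl
  | none =>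
    cases rule (ER.Pat.ent (M x)) (mk κ' (l' x) (i' x) (z' x)) (mk κ (l x) (i x) (z x)) with
    | some v => rfl
    | none => rfl

end Pool.Agent.NPC.H749D
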