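import Pool.Agent.Run7.h749.UD.Cols

/-!
# Bounded degree unit disk graphs: rows (piece C2b)
-/

namespace Run7.h749.UD

open Complex Run7.h840

noncomputable def W1 (q n : ℂ) : ℂ := n - q + cu g1i
noncomputable def W2 (q n : ℂ) : ℂ := n + q + cu g4i

/-- offset of row `r` in a block with data `q`, `n` -/
noncomputable def offY (q n : ℂ) (r : ℕ) : ℂ :=
  match r with
  | 0 => 0
  | 1 => spb (W1 q n)
  | 2 => spb (W1 q n) - cu g1i
  | 3 => n - q
  | 4 => n - q + spa (W2 q n)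
  | 5 => n - q + spa (W2 q n) - cu g4i
  | 6 => 2 * n
  | _ => 2 * n + cu g6i

noncomputable def baseY (n : ℕ → ℂ) (p : ℕ) : ℂ :=
  ∑ j ∈ Finset.range p, (2 * n j + cu g6i + cu g7i)

noncomputable def rowY (q n : ℕ → ℂ) (i : ℕ) : ℂ :=
  baseY n (i / 8) + offY (q (i / 8)) (n (i / 8)) (i % 8)

theorem rowY_eq (q n : ℕ → ℂ) (p r : ℕ) (hr : r < 8) :
    rowY q n (8 * p + r) = baseY n p + offY (q p) (n p) r := by
  have e1 : (8 * p + r) / 8 = p := by omega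
  have e2 : (8 * p + r) % 8 = r := by omega
  unfold rowY; rw [e1, e2]

theorem baseY_succ (n : ℕ → ℂ) (p : ℕ) :
    baseY n (p + 1) = baseY n p + (2 * n p + cu g6i + cu g7i) := by
  unfold baseY; rw [Finset.sum_range_succ]

theorem norm_g1 : ‖cu g1i‖ = 1 := norm_cu_one _ (by unfold nsq g1i S1; norm_num)
theorem norm_g4 : ‖cu g4i‖ = 1 := norm_cu_one _ (by unfold nsq g4i S1; norm_num)
theorem norm_g6 : ‖cu g6i‖ = 1 := norm_cu_one _ (by unfold nsq g6i S1; norm_num)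
theorem norm_g7 : ‖cu g7i‖ = 1 := norm_cu_one _ (by unfold nsq g7i S1; norm_num)
theorem norm_n0 : ‖cu n0i‖ = 1 := norm_cu_one _ (by unfold nsq n0i S1; norm_num)

theorem stepY (q n : ℕ → ℂ) (h1 : ∀ p, 0 < ‖W1 (q p) (n p)‖ ∧ ‖W1 (q p) (n p)‖ ≤ 2)
    (h2 : ∀ p, 0 < ‖W2 (q p) (n p)‖ ∧ ‖W2 (q p) (n p)‖ ≤ 2) (i : ℕ) :
    ‖rowY q n (i + 1) - rowY q n i‖ = 1 := by
  obtain ⟨p, r, hr, rfl⟩ : ∃ p r, r < 8 ∧ i = 8 * p + r := ⟨i / 8, i % 8, by omega, by omega⟩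
  have hstep : ∀ r, r < 7 → rowY q n (8 * p + r + 1) - rowY q n (8 * p + r) =
      offY (q p) (n p) (r + 1) - offY (q p) (n p) r := by
    intro r hr
    rw [add_assoc, rowY_eq q n p (r + 1) (by omega), rowY_eq q n p r (by omega)]
    ring
  have a1 := spa_add_spb (W1 (q p) (n p))
  have a2 := spa_add_spb (W2 (q p) (n p))
  interval_cases r
  · rw [hstep 0 (by norm_num)]
    show ‖spb (W1 (q p) (n p)) - 0‖ = 1
    rw [sub_zero]
    exact norm_spb _ (h1 p).1 (h1 p).2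
  · rw [hstep 1 (by norm_num)]
    show ‖spb (W1 (q p) (n p)) - cu g1i - spb (W1 (q p) (n p))‖ = 1
    have e : spb (W1 (q p) (n p)) - cu g1i - spb (W1 (q p) (n p)) = - cu g1i := by ring
    rw [e, norm_neg]; exact norm_g1
  · rw [hstep 2 (by norm_num)]
    show ‖n p - q p - (spb (W1 (q p) (n p)) - cu g1i)‖ = 1
    have e : n p - q p - (spb (W1 (q p) (n p)) - cu g1i) = spa (W1 (q p) (n p)) := by
      have : W1 (q p) (n p) = n p - q p + cu g1i := rfl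
      linear_combination -this - a1
    rw [e]; exact norm_spa _ (h1 p).1 (h1 p).2
  · rw [hstep 3 (by norm_num)]
    show ‖n p - q p + spa (W2 (q p) (n p)) - (n p - q p)‖ = 1
    have e : n p - q p + spa (W2 (q p) (n p)) - (n p - q p) = spa (W2 (q p) (n p)) := by ring
    rw [e]; exact norm_spa _ (h2 p).1 (h2 p).2
  · rw [hstep 4 (by norm_num)]
    show ‖n p - q p + spa (W2 (q p) (n p)) - cu g4i - (n p - q p + spa (W2 (q p) (n p)))‖ = 1
    have e : n p - q p + spa (W2 (q p) (n p)) - cu g4i - (n p - q p + spa (W2 (q p) (n p))) =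
      - cu g4i := by ring
    rw [e, norm_neg]; exact norm_g4
  · rw [hstep 5 (by norm_num)]
    show ‖2 * n p - (n p - q p + spa (W2 (q p) (n p)) - cu g4i)‖ = 1
    have e : 2 * n p - (n p - q p + spa (W2 (q p) (n p)) - cu g4i) = spb (W2 (q p) (n p)) := by
      have : W2 (q p) (n p) = n p + q p + cu g4i := rfl
      linear_combination -this - a2
    rw [e]; exact norm_spb _ (h2 p).1 (h2 p).2
  · rw [hstep 6 (by norm_num)]
    show ‖2 * n p + cu g6i - 2 * n p‖ = 1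
    have e : 2 * n p + cu g6i - 2 * n p = cu g6i := by ring
    rw [e]; exact norm_g6
  · have e0 : 8 * p + 7 + 1 = 8 * (p + 1) + 0 := by ring
    rw [e0, rowY_eq q n (p + 1) 0 (by norm_num), rowY_eq q n p 7 (by norm_num), baseY_succ]
    have e : baseY n p + (2 * n p + cu g6i + cu g7i) + offY (q (p + 1)) (n (p + 1)) 0 -
        (baseY n p + offY (q p) (n p) 7) = cu g7i := by
      show baseY n p + (2 * n p + cu g6i + cu g7i) + 0 - (baseY n p + (2 * n p + cu g6i)) = cu g7i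
      ring
    rw [e]; exact norm_g7

theorem baseY_near (n : ℕ → ℂ) (m : ℕ) (c : ℝ) (hc : 0 ≤ c) (h1 : ∀ p < m, ‖n p - cu n0i‖ ≤ c)
    (h2 : ∀ p, m ≤ p → n p = cu n0i) (p : ℕ) :
    ‖baseY n p - (p : ℂ) * cu Pr‖ ≤ m * (2 * c) := by
  have e : baseY n p - (p : ℂ) * cu Pr = ∑ j ∈ Finset.range p, (2 * (n j - cu n0i)) := by
    unfold baseY
    have : cu Pr = 2 * cu n0i + cu g6i + cu g7i := by
      unfold Pr; rw [cu_va, cu_va]
      have := cu_vmn 2 n0i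
      push_cast at this
      rw [this]
    rw [this, ← Finset.card_range p, ← nsmul_eq_mul, ← Finset.sum_const, Finset.card_range,
      ← Finset.sum_sub_distrib]
    apply Finset.sum_congr rfl
    intro j _
    ring
  rw [e]
  have tn : ∀ v : ℂ, ‖2 * v‖ = 2 * ‖v‖ := by
    intro v; rw [norm_mul]; norm_num
  refine le_trans (norm_sum_le _ _) (sum_le (fun j => ‖2 * (n j - cu n0i)‖) m (2 * c)
    (by linarith) ?_ ?_ p)
  · intro q hq
    show ‖2 * (n q - cu n0i)‖ ≤ _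
    rw [tn]; linarith [h1 q hq]
  · intro q hq
    show ‖2 * (n q - cu n0i)‖ = 0
    rw [h2 q hq]; simp

/-- general estimate: a decomposition near a nominal one -/
theorem split_near (W : ℂ) (w0 a : V2) (hW : ‖W - cu w0‖ ≤ 2 / 10 ^ 9)
    (h1 : (1 : ℝ) ≤ ‖cu w0‖) (h2 : ‖cu w0‖ ≤ 1985 / 1000) (ha : |‖cu a‖ - 1| ≤ 1 / 10 ^ 9)
    (hb : |‖cu w0 - cu a‖ - 1| ≤ 1 / 10 ^ 9) :
    (1 / 10 ≤ cr (cu w0) (cu a) → ‖spa W - cu a‖ ≤ 5 / 10 ^ 7) ∧
    (cr (cu w0) (cu a) ≤ -(1 / 10) → ‖spb W - cu a‖ ≤ 5 / 10 ^ 7) ∧ 0 < ‖W‖ ∧ ‖W‖ ≤ 2 := by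
  have b := abs_le.1 (le_trans (abs_norm_sub_norm_le W (cu w0)) hW)
  have c3 := near_add hW hb
  have c4 : |cr (W - cu w0) (cu a)| ≤ 1 / 10 ^ 8 := by
    refine le_trans (abs_cr_le _ _) ?_
    have : ‖cu a‖ ≤ 2 := by have := (abs_le.1 ha).2; linarith
    calc ‖W - cu w0‖ * ‖cu a‖ ≤ 2 / 10 ^ 9 * 2 :=
          mul_le_mul hW this (norm_nonneg _) (by norm_num)
      _ ≤ 1 / 10 ^ 8 := by norm_num
  rw [cr_sub_left] at c4
  have c5 := abs_le.1 c4
  have sp := split_gen W (by linarith [b.1]) (by linarith [b.2]) (cu a) (3 / 10 ^ 9) (by norm_num)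
    (by norm_num) (by linarith) (by linarith)
  refine ⟨?_, ?_, by linarith [b.1], by linarith [b.2]⟩
  · intro h
    have := sp.1 (by linarith [c5.1])
    linarith
  · intro h
    have := sp.2 (by linarith [c5.2])
    linarith

theorem W1_split (q n : ℂ) (hq : ‖q - cu Z0i‖ ≤ 1 / 10 ^ 9) (hn : ‖n - cu n0i‖ ≤ 1 / 10 ^ 9) :
    ‖spb (W1 q n) - cu g0i‖ ≤ 5 / 10 ^ 7 ∧ 0 < ‖W1 q n‖ ∧ ‖W1 q n‖ ≤ 2 := by
  have hW : ‖W1 q n - cu (va (vs n0i Z0i) g1i)‖ ≤ 2 / 10 ^ 9 := by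
    rw [cu_va, cu_vs]
    have e : W1 q n - (cu n0i - cu Z0i + cu g1i) = (n - cu n0i) - (q - cu Z0i) := by
      unfold W1; ring
    rw [e]
    refine le_trans (norm_sub_le _ _) ?_
    linarith
  have a1 := norm_cu_ge (va (vs n0i Z0i) g1i) 1 1 (by norm_num)
    (by unfold nsq va vs n0i Z0i g1i S1; norm_num)
  have a2 := norm_cu_le (va (vs n0i Z0i) g1i) 1985 1000 (by norm_num)
    (by unfold nsq va vs n0i Z0i g1i S1; norm_num)
  push_cast at a1 a2
  have a3 : |‖cu g0i‖ - 1| ≤ 1 / 10 ^ 9 :=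
    norm_cu_near _ (by unfold nsq g0i S1; norm_num) (by unfold nsq g0i S1; norm_num)
  have a4 : |‖cu (va (vs n0i Z0i) g1i) - cu g0i‖ - 1| ≤ 1 / 10 ^ 9 := by
    rw [← cu_vs]
    exact norm_cu_near _ (by unfold nsq va vs n0i Z0i g1i g0i S1; norm_num)
      (by unfold nsq va vs n0i Z0i g1i g0i S1; norm_num)
  have s := split_near (W1 q n) (va (vs n0i Z0i) g1i) g0i hW (by linarith) a2 a3 a4
  refine ⟨s.2.1 ?_, s.2.2⟩
  rw [cr_cu]; unfold va vs n0i Z0i g1i g0i S1; norm_num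

theorem W2_split (q n : ℂ) (hq : ‖q - cu Z0i‖ ≤ 1 / 10 ^ 9) (hn : ‖n - cu n0i‖ ≤ 1 / 10 ^ 9) :
    ‖spa (W2 q n) - cu g3i‖ ≤ 5 / 10 ^ 7 ∧ 0 < ‖W2 q n‖ ∧ ‖W2 q n‖ ≤ 2 := by
  have hW : ‖W2 q n - cu (va (va n0i Z0i) g4i)‖ ≤ 2 / 10 ^ 9 := by
    rw [cu_va, cu_va]
    have e : W2 q n - (cu n0i + cu Z0i + cu g4i) = (n - cu n0i) + (q - cu Z0i) := by
      unfold W2; ring
    rw [e]
    refine le_trans (norm_add_le _ _) ?_
    linarith
  have a1 := norm_cu_ge (va (va n0i Z0i) g4i) 1 1 (by norm_num)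
    (by unfold nsq va n0i Z0i g4i S1; norm_num)
  have a2 := norm_cu_le (va (va n0i Z0i) g4i) 1985 1000 (by norm_num)
    (by unfold nsq va n0i Z0i g4i S1; norm_num)
  push_cast at a1 a2
  have a3 : |‖cu g3i‖ - 1| ≤ 1 / 10 ^ 9 :=
    norm_cu_near _ (by unfold nsq g3i S1; norm_num) (by unfold nsq g3i S1; norm_num)
  have a4 : |‖cu (va (va n0i Z0i) g4i) - cu g3i‖ - 1| ≤ 1 / 10 ^ 9 := by
    rw [← cu_vs]
    exact norm_cu_near _ (by unfold nsq vs va n0i Z0i g4i g3i S1; norm_num)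
      (by unfold nsq vs va n0i Z0i g4i g3i S1; norm_num)
  have s := split_near (W2 q n) (va (va n0i Z0i) g4i) g3i hW (by linarith) a2 a3 a4
  refine ⟨s.1 ?_, s.2.2⟩
  rw [cr_cu]; unfold va n0i Z0i g4i g3i S1; norm_num

theorem rowY_near (q n : ℕ → ℂ) (m : ℕ) (c : ℝ) (hc : 0 ≤ c) (hc2 : c ≤ 1 / 10 ^ 9)
    (hmc : m * c ≤ 1 / 10 ^ 9) (h0 : ∀ p, ‖q p - cu Z0i‖ ≤ c) (h1 : ∀ p, ‖n p - cu n0i‖ ≤ c)
    (h2 : ∀ p, m ≤ p → n p = cu n0i) (i : ℕ) : ‖rowY q n i - cS (NY i)‖ ≤ 1 / 10 ^ 6 := by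
  rw [cS_NY]
  unfold rowY
  have hb := baseY_near n m c hc (fun p _ => h1 p) h2 (i / 8)
  set p := i / 8
  have hq := h0 p
  have hn := h1 p
  have s1 := W1_split (q p) (n p) (by linarith) (by linarith)
  have s2 := W2_split (q p) (n p) (by linarith) (by linarith)
  have key : ∀ u v : ℂ, ‖u - v‖ ≤ 6 / 10 ^ 7 →
      ‖baseY n p + u - ((p : ℂ) * cu Pr + v)‖ ≤ 1 / 10 ^ 6 := by
    intro u v huv
    have e : baseY n p + u - ((p : ℂ) * cu Pr + v) = (baseY n p - (p : ℂ) * cu Pr) + (u - v) := by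
      ring
    rw [e]
    refine le_trans (norm_add_le _ _) ?_
    linarith
  have hr : i % 8 < 8 := Nat.mod_lt _ (by norm_num)
  have e2 : cu (vm 2 n0i) = 2 * cu n0i := by
    have := cu_vmn 2 n0i
    push_cast at this
    exact this
  have t2 : ‖2 * n p - 2 * cu n0i‖ ≤ 2 / 10 ^ 9 := by
    have e : 2 * n p - 2 * cu n0i = 2 * (n p - cu n0i) := by ring
    rw [e, norm_mul]
    have : ‖(2:ℂ)‖ = 2 := by norm_num
    rw [this]; linarith
  have t3 : ‖n p - q p - (cu n0i - cu Z0i)‖ ≤ 2 / 10 ^ 9 := by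
    have e : n p - q p - (cu n0i - cu Z0i) = (n p - cu n0i) - (q p - cu Z0i) := by ring
    rw [e]
    refine le_trans (norm_sub_le _ _) ?_
    linarith
  have t4 : ‖n p - q p + spa (W2 (q p) (n p)) - (cu n0i - cu Z0i + cu g3i)‖ ≤ 6 / 10 ^ 7 := by
    have e : n p - q p + spa (W2 (q p) (n p)) - (cu n0i - cu Z0i + cu g3i) =
      (n p - q p - (cu n0i - cu Z0i)) + (spa (W2 (q p) (n p)) - cu g3i) := by ring
    rw [e]
    refine le_trans (norm_add_le _ _) ?_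
    linarith [s2.1]
  apply key
  generalize i % 8 = r at hr
  interval_cases r
  · show ‖(0:ℂ) - cu (0, 0)‖ ≤ _
    rw [cu_zero, sub_zero, norm_zero]; norm_num
  · show ‖spb (W1 (q p) (n p)) - cu g0i‖ ≤ _
    linarith [s1.1]
  · show ‖spb (W1 (q p) (n p)) - cu g1i - cu (vs g0i g1i)‖ ≤ _
    rw [cu_vs]
    have e : spb (W1 (q p) (n p)) - cu g1i - (cu g0i - cu g1i) =
      spb (W1 (q p) (n p)) - cu g0i := by ring
    rw [e]; linarith [s1.1]
  · show ‖n p - q p - cu (vs n0i Z0i)‖ ≤ _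
    rw [cu_vs]; linarith
  · show ‖n p - q p + spa (W2 (q p) (n p)) - cu (va (vs n0i Z0i) g3i)‖ ≤ _
    rw [cu_va, cu_vs]; exact t4
  · show ‖n p - q p + spa (W2 (q p) (n p)) - cu g4i - cu (vs (va (vs n0i Z0i) g3i) g4i)‖ ≤ _
    rw [cu_vs, cu_va, cu_vs]
    have e : n p - q p + spa (W2 (q p) (n p)) - cu g4i - (cu n0i - cu Z0i + cu g3i - cu g4i) =
      n p - q p + spa (W2 (q p) (n p)) - (cu n0i - cu Z0i + cu g3i) := by ring
    rw [e]; exact t4
  · show ‖2 * n p - cu (vm 2 n0i)‖ ≤ _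
    rw [e2]; linarith
  · show ‖2 * n p + cu g6i - cu (va (vm 2 n0i) g6i)‖ ≤ _
    rw [cu_va, e2]
    have e : 2 * n p + cu g6i - (2 * cu n0i + cu g6i) = 2 * n p - 2 * cu n0i := by ring
    rw [e]; linarith

/-- **C2b.** -/
theorem c2b : S_C2b := by
  intro nL q n hm hq hn hn1
  have hmR : (1:ℝ) ≤ nL := by exact_mod_cast hm
  set c : ℝ := 1 / (10 ^ 9 * nL) with hc
  have hc0 : 0 ≤ c := by rw [hc]; positivity
  have hmc : nL * c = 1 / 10 ^ 9 := by rw [hc]; field_simp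
  have hc1 : c ≤ 1 / 10 ^ 9 := by
    rw [← hmc]; nlinarith
  set q' : ℕ → ℂ := fun p => if p < nL then q p else cu Z0i with hq'
  set n' : ℕ → ℂ := fun p => if p < nL then n p else cu n0i with hn'
  have b1 : ∀ p, ‖q' p - cu Z0i‖ ≤ c := by
    intro p
    simp only [hq']
    split
    · exact hq p
    · simp [hc0]
  have b2 : ∀ p, ‖n' p - cu n0i‖ ≤ c := by
    intro p
    simp only [hn']
    split
    · exact hn p
    · simp [hc0]
  have b3 : ∀ p, nL ≤ p → n' p = cu n0i := by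
    intro p hp
    simp only [hn']
    rw [if_neg (by omega)]
  refine ⟨rowY q' n', ?_, ?_, ?_, ?_⟩
  · show (∑ j ∈ Finset.range 0, (2 * n' j + cu g6i + cu g7i)) + 0 = 0
    simp
  · exact stepY q' n' (fun p => (W1_split _ _ (by linarith [b1 p]) (by linarith [b2 p])).2)
      (fun p => (W2_split _ _ (by linarith [b1 p]) (by linarith [b2 p])).2)
  · exact rowY_near q' n' nL c hc0 hc1 (le_of_eq hmc) b1 b2 b3
  · intro j hj
    have e1 : q' j = q j := by simp only [hq']; rw [if_pos hj]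
    have e2 : n' j = n j := by simp only [hn']; rw [if_pos hj]
    rw [rowY_eq q' n' j 3 (by norm_num), rowY_eq q' n' j 6 (by norm_num),
      show 8 * j = 8 * j + 0 from rfl, rowY_eq q' n' j 0 (by norm_num), ← e1, ← e2]
    constructor
    · show baseY n' j + (n' j - q' j) - (baseY n' j + 0) = n' j - q' j
      ring
    · show baseY n' j + 2 * n' j - (baseY n' j + (n' j - q' j)) = n' j + q' j
      ring

end Run7.h749.UD
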