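import Pool.Agent.Run7.h840.IfaceC

/-!
# Bounded degree unit disk graphs: decomposition into unit vectors (piece Csplit)
-/

namespace Run7.h749.UD

open Complex Run7.h840

theorem nsq_eq (z : ℂ) : ‖z‖ ^ 2 = z.re ^ 2 + z.im ^ 2 := by
  rw [← Complex.normSq_eq_norm_sq, Complex.normSq_apply]; ring

theorem kk_sq (W : ℂ) (h1 : 0 < ‖W‖) (h2 : ‖W‖ ≤ 2) :
    kk W ^ 2 * ‖W‖ ^ 2 = 1 - ‖W‖ ^ 2 / 4 := by
  unfold kk
  rw [Real.sq_sqrt]
  · field_simp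
  · have h3 : ‖W‖ ^ 2 ≤ 4 := by nlinarith
    have h4 : (1:ℝ) / 4 ≤ 1 / ‖W‖ ^ 2 := by
      apply one_div_le_one_div_of_le
      · positivity
      · exact h3
    linarith

theorem spa_re (W : ℂ) : (spa W).re = W.re / 2 - kk W * W.im := by
  have h : (W / 2).re = W.re / 2 := by
    simp
  unfold spa
  rw [Complex.add_re, h, Complex.re_ofReal_mul]
  simp
  ring

theorem spa_im (W : ℂ) : (spa W).im = W.im / 2 + kk W * W.re := by
  have h : (W / 2).im = W.im / 2 := by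
    simp
  unfold spa
  rw [Complex.add_im, h, Complex.im_ofReal_mul]
  simp

theorem spb_re (W : ℂ) : (spb W).re = W.re / 2 + kk W * W.im := by
  have h : (W / 2).re = W.re / 2 := by
    simp
  unfold spb
  rw [Complex.sub_re, h, Complex.re_ofReal_mul]
  simp

theorem spb_im (W : ℂ) : (spb W).im = W.im / 2 - kk W * W.re := by
  have h : (W / 2).im = W.im / 2 := by
    simp
  unfold spb
  rw [Complex.sub_im, h, Complex.im_ofReal_mul]
  simp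

theorem norm_spa (W : ℂ) (h1 : 0 < ‖W‖) (h2 : ‖W‖ ≤ 2) : ‖spa W‖ = 1 := by
  have h : ‖spa W‖ ^ 2 = 1 := by
    have e := nsq_eq W
    have k := kk_sq W h1 h2
    rw [nsq_eq, spa_re, spa_im]
    rw [e] at k
    linear_combination k
  have h0 := norm_nonneg (spa W)
  nlinarith

theorem norm_spb (W : ℂ) (h1 : 0 < ‖W‖) (h2 : ‖W‖ ≤ 2) : ‖spb W‖ = 1 := by
  have h : ‖spb W‖ ^ 2 = 1 := by
    have e := nsq_eq W
    have k := kk_sq W h1 h2
    rw [nsq_eq, spb_re, spb_im]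
    rw [e] at k
    linear_combination k
  have h0 := norm_nonneg (spb W)
  nlinarith

theorem spa_add_spb (W : ℂ) : spa W + spb W = W := by
  unfold spa spb; ring

/-- the estimate in real terms -/
theorem core (w T C D A η : ℝ) (hw1 : 1 / 20 ≤ w) (hw2 : w ≤ 199 / 100) (hT : 0 ≤ T)
    (hT2 : T ^ 2 = w ^ 2 * (1 - w ^ 2 / 4)) (hC : 0 < C) (hDC : D ^ 2 + C ^ 2 = w ^ 2 * A)
    (h0 : 0 ≤ η) (h1 : η ≤ 1 / 1000) (hA : |A - 1| ≤ 2001 / 1000 * η)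
    (hD : |D - w ^ 2 / 2| ≤ 2 * η) :
    (w ^ 2 / 2 - D) ^ 2 + (T - C) ^ 2 ≤ (100 * η) ^ 2 * w ^ 2 := by
  have hwp : 0 < w := by linarith
  have hw3 : (1:ℝ) / 400 ≤ w ^ 2 := by nlinarith
  have hw4 : w ^ 2 ≤ 39601 / 10000 := by nlinarith
  obtain ⟨hA1, hA2⟩ := abs_le.1 hA
  obtain ⟨hD1, hD2⟩ := abs_le.1 hD
  -- T is large
  have hTw : 99 / 1000 * w ≤ T := by
    have : (99 / 1000 * w) ^ 2 ≤ T ^ 2 := by
      rw [hT2]
      have h7 : (99 / 1000 : ℝ) ^ 2 ≤ 1 - w ^ 2 / 4 := by linarith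
      have h8 := mul_le_mul_of_nonneg_left h7 (sq_nonneg w)
      linarith
    exact (pow_le_pow_iff_left₀ (by positivity) hT (by norm_num)).1 this
  -- the product
  have hP : (T - C) * (T + C) = w ^ 2 * (1 - A) + (D - w ^ 2 / 2) * (D + w ^ 2 / 2) := by
    linear_combination hT2 - hDC
  have hDp : 0 ≤ D + w ^ 2 / 2 := by nlinarith
  have hDp2 : D + w ^ 2 / 2 ≤ w ^ 2 + 2 * η := by linarith
  have hq1 : (D - w ^ 2 / 2) * (D + w ^ 2 / 2) ≤ 2 * η * (w ^ 2 + 2 * η) := by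
    calc (D - w ^ 2 / 2) * (D + w ^ 2 / 2) ≤ 2 * η * (D + w ^ 2 / 2) :=
          mul_le_mul_of_nonneg_right hD2 hDp
      _ ≤ 2 * η * (w ^ 2 + 2 * η) := mul_le_mul_of_nonneg_left hDp2 (by linarith)
  have hq2 : -(2 * η * (w ^ 2 + 2 * η)) ≤ (D - w ^ 2 / 2) * (D + w ^ 2 / 2) := by
    have a1 : -(2 * η) * (D + w ^ 2 / 2) ≤ (D - w ^ 2 / 2) * (D + w ^ 2 / 2) :=
      mul_le_mul_of_nonneg_right hD1 hDp
    have a2 : 2 * η * (D + w ^ 2 / 2) ≤ 2 * η * (w ^ 2 + 2 * η) :=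
      mul_le_mul_of_nonneg_left hDp2 (by linarith)
    linarith
  have hr : 2 * η * (w ^ 2 + 2 * η) ≤ 36 / 10 * η * w ^ 2 := by
    have : η * η ≤ η * (1 / 1000) := mul_le_mul_of_nonneg_left h1 h0
    have a3 : η * (1 / 400) ≤ η * w ^ 2 := mul_le_mul_of_nonneg_left hw3 h0
    linarith
  have hs1 : w ^ 2 * (1 - A) ≤ w ^ 2 * (2001 / 1000 * η) :=
    mul_le_mul_of_nonneg_left (by linarith) (by positivity)
  have hs2 : w ^ 2 * (-(2001 / 1000 * η)) ≤ w ^ 2 * (1 - A) :=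
    mul_le_mul_of_nonneg_left (by linarith) (by positivity)
  have hPa : |(T - C) * (T + C)| ≤ 561 / 100 * η * w ^ 2 := by
    rw [hP, abs_le]
    have h9 := mul_nonneg h0 (sq_nonneg w)
    constructor
    · linarith
    · linarith
  have hTC : |T - C| * (99 / 1000 * w) ≤ 561 / 100 * η * w ^ 2 := by
    rw [abs_mul, abs_of_nonneg (show 0 ≤ T + C by linarith)] at hPa
    refine le_trans (mul_le_mul_of_nonneg_left (by linarith) (abs_nonneg _)) hPa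
  have hTC2 : |T - C| ≤ 57 * η * w := by
    have h5 : |T - C| * (99 / 1000 * w) ≤ 57 * η * w * (99 / 1000 * w) := by
      have h9 := mul_nonneg h0 (sq_nonneg w)
      linarith
    exact le_of_mul_le_mul_right h5 (by positivity)
  have hTC3 : (T - C) ^ 2 ≤ (57 * η * w) ^ 2 := by
    rw [← sq_abs (T - C)]
    exact pow_le_pow_left₀ (abs_nonneg _) hTC2 2
  have hD4 : (w ^ 2 / 2 - D) ^ 2 ≤ (2 * η) ^ 2 := by
    rw [← sq_abs (w ^ 2 / 2 - D), abs_sub_comm]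
    exact pow_le_pow_left₀ (abs_nonneg _) hD 2
  have hD5 : (2 * η) ^ 2 ≤ 1600 * η ^ 2 * w ^ 2 := by
    have h9 := mul_le_mul_of_nonneg_left hw3 (sq_nonneg η)
    linarith
  have h9 := mul_nonneg (sq_nonneg η) (sq_nonneg w)
  have h10 : (57 * η * w) ^ 2 = 3249 * (η ^ 2 * w ^ 2) := by ring
  linarith

theorem split_gen (W : ℂ) (h1 : 1 / 20 ≤ ‖W‖) (h2 : ‖W‖ ≤ 199 / 100) (a : ℂ) (η : ℝ)
    (h0 : 0 ≤ η) (h3 : η ≤ 1 / 1000) (ha : |‖a‖ - 1| ≤ η) (hb : |‖W - a‖ - 1| ≤ η) :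
    (0 < cr W a → ‖spa W - a‖ ≤ 100 * η) ∧ (cr W a < 0 → ‖spb W - a‖ ≤ 100 * η) := by
  have hwp : 0 < ‖W‖ := by linarith
  have eW := nsq_eq W
  have ea := nsq_eq a
  have eb := nsq_eq (W - a)
  rw [Complex.sub_re, Complex.sub_im] at eb
  have hk := kk_sq W hwp (by linarith)
  have hk0 : 0 ≤ kk W := Real.sqrt_nonneg _
  obtain ⟨ha1, ha2⟩ := abs_le.1 ha
  obtain ⟨hb1, hb2⟩ := abs_le.1 hb
  have hηη : η * η ≤ η * (1 / 1000) := mul_le_mul_of_nonneg_left h3 h0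
  have la : ‖a‖ ^ 2 ≤ (1 + η) ^ 2 := pow_le_pow_left₀ (norm_nonneg _) (by linarith) 2
  have la' : (1 - η) ^ 2 ≤ ‖a‖ ^ 2 := pow_le_pow_left₀ (by linarith) (by linarith) 2
  have lb : ‖W - a‖ ^ 2 ≤ (1 + η) ^ 2 := pow_le_pow_left₀ (norm_nonneg _) (by linarith) 2
  have lb' : (1 - η) ^ 2 ≤ ‖W - a‖ ^ 2 := pow_le_pow_left₀ (by linarith) (by linarith) 2
  have hA : |‖a‖ ^ 2 - 1| ≤ 2001 / 1000 * η := by
    rw [abs_le]; constructor
    · nlinarith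
    · nlinarith
  have hD : |dt W a - ‖W‖ ^ 2 / 2| ≤ 2 * η := by
    have e : dt W a - ‖W‖ ^ 2 / 2 = (‖a‖ ^ 2 - ‖W - a‖ ^ 2) / 2 := by
      rw [eW, ea, eb]; unfold dt; ring
    rw [e, abs_le]; constructor
    · linarith
    · linarith
  have hT : 0 ≤ kk W * ‖W‖ ^ 2 := by positivity
  have hT2 : (kk W * ‖W‖ ^ 2) ^ 2 = ‖W‖ ^ 2 * (1 - ‖W‖ ^ 2 / 4) := by
    rw [← hk]; ring
  have fin : ∀ v : ℂ, ‖v‖ ^ 2 * ‖W‖ ^ 2 ≤ (100 * η) ^ 2 * ‖W‖ ^ 2 → ‖v‖ ≤ 100 * η := by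
    intro v hv
    have h4 : ‖v‖ ^ 2 ≤ (100 * η) ^ 2 := le_of_mul_le_mul_right hv (by positivity)
    exact (pow_le_pow_iff_left₀ (norm_nonneg _) (by positivity) (by norm_num)).1 h4
  constructor
  · intro hC
    apply fin
    have hDC : dt W a ^ 2 + cr W a ^ 2 = ‖W‖ ^ 2 * ‖a‖ ^ 2 := by
      rw [eW, ea]; unfold dt cr; ring
    have h5 := core ‖W‖ (kk W * ‖W‖ ^ 2) (cr W a) (dt W a) (‖a‖ ^ 2) η h1 h2 hT hT2 hC hDC h0 h3
      hA hD
    refine le_trans (le_of_eq ?_) h5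
    have ev := nsq_eq (spa W - a)
    rw [Complex.sub_re, Complex.sub_im, spa_re, spa_im] at ev
    rw [ev, eW]; unfold dt cr; ring
  · intro hC
    apply fin
    have hDC : dt W a ^ 2 + (-cr W a) ^ 2 = ‖W‖ ^ 2 * ‖a‖ ^ 2 := by
      rw [eW, ea]; unfold dt cr; ring
    have h5 := core ‖W‖ (kk W * ‖W‖ ^ 2) (-cr W a) (dt W a) (‖a‖ ^ 2) η h1 h2 hT hT2
      (by linarith) hDC h0 h3 hA hD
    refine le_trans (le_of_eq ?_) h5
    have ev := nsq_eq (spb W - a)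
    rw [Complex.sub_re, Complex.sub_im, spb_re, spb_im] at ev
    rw [ev, eW]; unfold dt cr; ring

/-- **C-split.** -/
theorem split : S_split := by
  intro W h1 h2
  have hwp : 0 < ‖W‖ := by linarith
  refine ⟨norm_spa W hwp (by linarith), norm_spb W hwp (by linarith), spa_add_spb W, ?_⟩
  intro a' η h0 h3 ha hb
  exact split_gen W h1 (by linarith) a' η h0 h3 ha hb

end Run7.h749.UD
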